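import Pool.Agent.BSAuto.Lower

/-! An automatic structure gives a quadratic bound for the cocycle norm. -/

set_option autoImplicit false

namespace Pool.Agent.BSAuto

/-- words -/
abbrev Wo : Type := List (Fin 2 × Bool)

/-- evaluation in BS(3,5) -/
noncomputable def ev (w : Wo) : P := mkP (FreeGroup.mk w)

lemma ev_append (u v : Wo) : ev (u ++ v) = ev u * ev v := by
  simp only [ev, ← FreeGroup.mul_mk, map_mul]

lemma ev_nil : ev [] = 1 := by
  simp only [ev, ← FreeGroup.one_eq_mk, map_one]

lemma mk_append (u v : Wo) : FreeGroup.mk (u ++ v) = FreeGroup.mk u * FreeGroup.mk v :=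
  FreeGroup.mul_mk.symm

lemma fellow {k D0 : ℕ}
    (hD : ∀ w : Wo, w.length ≤ 2 * k + 2 → mkP (FreeGroup.mk w) = 1 → Bd (Df (FreeGroup.mk w)) D0)
    (u v z : Wo) (hz : z.length ≤ 1) (huv : ev u * ev z = ev v)
    (hft : ∀ t : ℕ, ∃ w : Wo, w.length ≤ k ∧ ev (u.take t) * ev w = ev (v.take t)) :
    Bd (Df (FreeGroup.mk u * FreeGroup.mk z * (FreeGroup.mk v)⁻¹))
      ((max u.length v.length + 2) * D0) := by
  choose w hw1 hw2 using hft
  set p : ℕ → F := fun t => FreeGroup.mk (u.take t) * FreeGroup.mk (w t) *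
    (FreeGroup.mk (v.take t))⁻¹ with hp
  have hpnull : ∀ t, mkP (p t) = 1 := by
    intro t
    have := hw2 t
    simp only [ev] at this
    simp only [hp, map_mul, map_inv, this, mul_inv_cancel]
  have hpB : ∀ t, Bd (Df (p t)) ((t + 1) * D0) := by
    intro t
    induction t with
    | zero =>
      have h0 : p 0 = FreeGroup.mk (w 0) := by
        simp only [hp, List.take_zero, ← FreeGroup.one_eq_mk, one_mul, inv_one, mul_one]
      rw [h0, zero_add, one_mul]
      apply hD _ (by have := hw1 0; omega)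
      rw [← h0]; exact hpnull 0
    | succ t ih =>
      set a : Wo := (u[t]?).toList with ha
      set b : Wo := (v[t]?).toList with hb
      have hal : a.length ≤ 1 := by
        rw [ha]; cases u[t]? <;> simp
      have hbl : b.length ≤ 1 := by
        rw [hb]; cases v[t]? <;> simp
      have hu : u.take (t + 1) = u.take t ++ a := List.take_add_one
      have hv : v.take (t + 1) = v.take t ++ b := List.take_add_one
      set c : Wo := a ++ w (t + 1) ++ FreeGroup.invRev b ++ FreeGroup.invRev (w t) with hc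
      have hcl : c.length ≤ 2 * k + 2 := by
        simp only [hc, List.length_append, FreeGroup.invRev_length]
        have := hw1 t
        have := hw1 (t + 1)
        omega
      have hmkc : FreeGroup.mk c = FreeGroup.mk a * FreeGroup.mk (w (t + 1)) *
          (FreeGroup.mk b)⁻¹ * (FreeGroup.mk (w t))⁻¹ := by
        simp only [hc, mk_append, FreeGroup.inv_mk]
      have hstep : p (t + 1) = FreeGroup.mk (u.take t) * FreeGroup.mk c *
          (FreeGroup.mk (u.take t))⁻¹ * p t := by
        simp only [hp, hu, hv, mk_append, hmkc]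
        group
      have hcnull : mkP (FreeGroup.mk c) = 1 := by
        have h1 := hpnull (t + 1)
        rw [hstep, map_mul, map_mul, map_mul, hpnull t, mul_one, map_inv] at h1
        have h2 : mkP (FreeGroup.mk (u.take t)) * mkP (FreeGroup.mk c) =
            mkP (FreeGroup.mk (u.take t)) := mul_inv_eq_one.1 h1
        simpa using h2
      have hcB := hD c hcl hcnull
      have h3 := Bd_conj_of_null hcnull hcB (FreeGroup.mk (u.take t))
      have h4 : mkP (FreeGroup.mk (u.take t) * FreeGroup.mk c * (FreeGroup.mk (u.take t))⁻¹) = 1 := by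
        rw [map_mul, map_mul, hcnull, mul_one, map_inv, mul_inv_cancel]
      rw [hstep]
      have h5 := Bd_mul_of_null h4 h3 ih
      have : D0 + (t + 1) * D0 = (t + 1 + 1) * D0 := by ring
      rwa [this] at h5
  set T := max u.length v.length with hT
  have huT : u.take T = u := List.take_of_length_le (le_max_left _ _)
  have hvT : v.take T = v := List.take_of_length_le (le_max_right _ _)
  set c : Wo := z ++ FreeGroup.invRev (w T) with hc
  have hcl : c.length ≤ 2 * k + 2 := by
    simp only [hc, List.length_append, FreeGroup.invRev_length]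
    have := hw1 T
    omega
  have hmkc : FreeGroup.mk c = FreeGroup.mk z * (FreeGroup.mk (w T))⁻¹ := by
    simp only [hc, mk_append, FreeGroup.inv_mk]
  have hcnull : mkP (FreeGroup.mk c) = 1 := by
    have h1 := hw2 T
    rw [huT, hvT, ← huv] at h1
    have h2 : ev (w T) = ev z := mul_left_cancel h1
    simp only [ev] at h2
    rw [hmkc, map_mul, map_inv, h2, mul_inv_cancel]
  have hstep : FreeGroup.mk u * FreeGroup.mk z * (FreeGroup.mk v)⁻¹ =
      FreeGroup.mk u * FreeGroup.mk c * (FreeGroup.mk u)⁻¹ * p T := by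
    simp only [hp, huT, hvT, hmkc]
    group
  have h3 := Bd_conj_of_null hcnull (hD c hcl hcnull) (FreeGroup.mk u)
  have h4 : mkP (FreeGroup.mk u * FreeGroup.mk c * (FreeGroup.mk u)⁻¹) = 1 := by
    rw [map_mul, map_mul, hcnull, mul_one, map_inv, mul_inv_cancel]
  rw [hstep]
  have h5 := Bd_mul_of_null h4 h3 (hpB T)
  have : D0 + (T + 1) * D0 = (T + 2) * D0 := by ring
  rwa [this] at h5

/-- short representatives -/
lemma pump {σ : Type*} [Fintype σ] (M : DFA (Fin 2 × Bool) σ)
    (hsurj : ∀ g : P, ∃ w : Wo, w ∈ M.accepts ∧ ev w = g) (k : ℕ)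
    (hft : ∀ u v : Wo, u ∈ M.accepts → v ∈ M.accepts →
      (∃ x : Fin 2 × Bool, ev u * ev [x] = ev v) →
      ∀ t : ℕ, ∃ w : Wo, w.length ≤ k ∧ ev (u.take t) * ev w = ev (v.take t)) :
    ∃ C : ℕ, ∀ u ∈ M.accepts, ∀ x : Fin 2 × Bool, ∃ v ∈ M.accepts,
      ev u * ev [x] = ev v ∧ v.length ≤ u.length + C := by
  classical
  have hfin : {l : List (Fin 2 × Bool) | l.length ≤ k}.Finite := List.finite_length_le _ k
  have : Fintype {l : List (Fin 2 × Bool) | l.length ≤ k} := hfin.fintype
  set C := Fintype.card (σ × {l : List (Fin 2 × Bool) | l.length ≤ k}) with hC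
  refine ⟨C, fun u hu x => ?_⟩
  have hex : ∃ n : ℕ, ∃ v ∈ M.accepts, ev u * ev [x] = ev v ∧ v.length = n := by
    obtain ⟨v, hv, hv'⟩ := hsurj (ev u * ev [x])
    exact ⟨v.length, v, hv, hv'.symm, rfl⟩
  obtain ⟨v, hv, hv1, hv2⟩ := Nat.find_spec hex
  refine ⟨v, hv, hv1, ?_⟩
  by_contra hlen
  push Not at hlen
  have hft' := hft u v hu hv ⟨x, hv1⟩
  choose w hw1 hw2 using hft'
  let f : Fin (C + 1) → σ × {l : List (Fin 2 × Bool) | l.length ≤ k} :=
    fun i => (M.eval (v.take (u.length + i)), ⟨w (u.length + i), hw1 _⟩)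
  obtain ⟨i, j, hij, hf⟩ := Fintype.exists_ne_map_eq_of_card_lt f (by
    rw [Fintype.card_fin]; omega)
  -- wlog i < j
  have main : ∀ i j : Fin (C + 1), i < j → f i = f j → False := by
    intro i j hlt hf
    have h1 : M.eval (v.take (u.length + i)) = M.eval (v.take (u.length + j)) :=
      congrArg Prod.fst hf
    have h2 : w (u.length + i) = w (u.length + j) := by
      have := congrArg (fun z => (z.2 : List (Fin 2 × Bool))) hf
      exact this
    have hti : u.take (u.length + i) = u := List.take_of_length_le (by omega)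
    have htj : u.take (u.length + j) = u := List.take_of_length_le (by omega)
    have h3 : ev (v.take (u.length + i)) = ev (v.take (u.length + j)) := by
      rw [← hw2, ← hw2, hti, htj, h2]
    set v' : Wo := v.take (u.length + i) ++ v.drop (u.length + j) with hv'
    have hacc : v' ∈ M.accepts := by
      rw [DFA.mem_accepts] at hv ⊢
      have e1 : M.eval v = M.evalFrom (M.eval (v.take (u.length + j))) (v.drop (u.length + j)) := by
        conv_lhs => rw [← List.take_append_drop (u.length + j) v]
        rw [DFA.eval, DFA.evalFrom_of_append, ← DFA.eval]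
      rw [hv', DFA.eval, DFA.evalFrom_of_append, ← DFA.eval, h1, ← e1]
      exact hv
    have hev : ev v' = ev v := by
      rw [hv', ev_append, h3, ← ev_append, List.take_append_drop]
    have hl : v'.length < v.length := by
      rw [hv', List.length_append, List.length_take, List.length_drop]
      have hj := j.2
      have hlt' : (i : ℕ) < j := hlt
      omega
    have := Nat.find_min' hex ⟨v', hacc, by rw [hev]; exact hv1, rfl⟩
    omega
  rcases lt_or_gt_of_ne hij with h | h
  · exact main i j h hf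
  · exact main j i h hf.symm

theorem quad_of_auto {σ : Type*} [Fintype σ] (M : DFA (Fin 2 × Bool) σ)
    (hsurj : ∀ g : P, ∃ w : Wo, w ∈ M.accepts ∧ ev w = g) (k : ℕ)
    (hft : ∀ u v : Wo, u ∈ M.accepts → v ∈ M.accepts →
      ((ev u)⁻¹ * ev v = 1 ∨ ∃ x : Fin 2 × Bool, (ev u)⁻¹ * ev v = ev [x]) →
      ∀ t : ℕ, ∃ w : Wo, w.length ≤ k ∧ ev (u.take t) * ev w = ev (v.take t)) :
    ∃ K : ℕ, ∀ w : Wo, mkP (FreeGroup.mk w) = 1 →
      Bd (Df (FreeGroup.mk w)) (K * (w.length + 1) ^ 2) := by
  obtain ⟨D0, hD⟩ := exists_unif (2 * k + 2)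
  obtain ⟨C, hC⟩ := pump M hsurj k (fun u v hu hv ⟨x, hx⟩ => hft u v hu hv
    (Or.inr ⟨x, by rw [← hx]; group⟩))
  obtain ⟨u0, hu0, hu0e⟩ := hsurj 1
  refine ⟨(u0.length + C + 2) * D0, fun w hw => ?_⟩
  set Q := (u0.length + w.length * C + 2) * D0 with hQ
  have chain : ∀ i ≤ w.length, ∃ v ∈ M.accepts, ev v = ev (w.take i) ∧
      v.length ≤ u0.length + i * C ∧
      Bd (Df (FreeGroup.mk u0 * FreeGroup.mk (w.take i) * (FreeGroup.mk v)⁻¹)) (i * Q) := by
    intro i
    induction i with
    | zero =>
      intro _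
      refine ⟨u0, hu0, by rw [hu0e, List.take_zero, ev_nil], by omega, ?_⟩
      have : FreeGroup.mk u0 * FreeGroup.mk (w.take 0) * (FreeGroup.mk u0)⁻¹ = (1 : F) := by
        rw [List.take_zero, ← FreeGroup.one_eq_mk]; group
      rw [this]
      intro s
      simp [Df_one]
    | succ i ih =>
      intro hi
      obtain ⟨v, hv, hve, hvl, hvB⟩ := ih (by omega)
      have hiw : i < w.length := by omega
      obtain ⟨v', hv', hve', hvl'⟩ := hC v hv (w[i])
      have htake : w.take (i + 1) = w.take i ++ [w[i]] := List.take_succ_eq_append_getElem hiw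
      refine ⟨v', hv', ?_, ?_, ?_⟩
      · rw [← hve', hve, htake, ev_append]
      · have : (i + 1) * C = i * C + C := by ring
        omega
      · have hF := fellow hD v v' [w[i]] (by simp) hve'
          (hft v v' hv hv' (Or.inr ⟨w[i], by rw [← hve']; group⟩))
        have hFle : (max v.length v'.length + 2) * D0 ≤ Q := by
          rw [hQ]
          apply Nat.mul_le_mul_right
          have h1 : (i + 1) * C ≤ w.length * C := Nat.mul_le_mul_right _ hi
          have h2 : (i + 1) * C = i * C + C := by ring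
          have : max v.length v'.length ≤ u0.length + w.length * C := by
            apply max_le <;> omega
          omega
        have hF' := hF.mono hFle
        have hnull : mkP (FreeGroup.mk u0 * FreeGroup.mk (w.take i) * (FreeGroup.mk v)⁻¹) = 1 := by
          simp only [ev] at hve hu0e
          rw [map_mul, map_mul, map_inv, hve, hu0e, one_mul, mul_inv_cancel]
        have heq : FreeGroup.mk u0 * FreeGroup.mk (w.take (i + 1)) * (FreeGroup.mk v')⁻¹ =
            (FreeGroup.mk u0 * FreeGroup.mk (w.take i) * (FreeGroup.mk v)⁻¹) *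
            (FreeGroup.mk v * FreeGroup.mk [w[i]] * (FreeGroup.mk v')⁻¹) := by
          rw [htake, mk_append]; group
        rw [heq]
        have := Bd_mul_of_null hnull hvB hF'
        have e : i * Q + Q = (i + 1) * Q := by ring
        rwa [e] at this
  obtain ⟨v, hv, hve, hvl, hvB⟩ := chain w.length le_rfl
  rw [List.take_length] at hve hvB
  have hve1 : ev v = 1 := by rw [hve]; exact hw
  have hF := fellow hD u0 v [] (by simp) (by rw [hu0e, ev_nil, hve1, mul_one])
    (hft u0 v hu0 hv (Or.inl (by rw [hu0e, hve1]; simp)))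
  have hFle : (max u0.length v.length + 2) * D0 ≤ Q := by
    rw [hQ]
    apply Nat.mul_le_mul_right
    have : max u0.length v.length ≤ u0.length + w.length * C := by
      apply max_le <;> omega
    omega
  have hF' := hF.mono hFle
  have hn0 : mkP (FreeGroup.mk u0) = 1 := hu0e
  have hn1 : mkP (FreeGroup.mk v) = 1 := hve1
  have hA : mkP (FreeGroup.mk u0 * FreeGroup.mk w * (FreeGroup.mk v)⁻¹) = 1 := by
    rw [map_mul, map_mul, map_inv, hn0, hn1, hw]; simp
  have hB : mkP (FreeGroup.mk u0 * FreeGroup.mk [] * (FreeGroup.mk v)⁻¹) = 1 := by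
    rw [map_mul, map_mul, map_inv, hn0, hn1, ← FreeGroup.one_eq_mk, map_one]; simp
  have hprod := Bd_mul_of_null hA hvB (Bd_inv_of_null hB hF')
  have hprodnull : mkP ((FreeGroup.mk u0 * FreeGroup.mk w * (FreeGroup.mk v)⁻¹) *
      (FreeGroup.mk u0 * FreeGroup.mk [] * (FreeGroup.mk v)⁻¹)⁻¹) = 1 := by
    rw [map_mul, hA, map_inv, hB]; simp
  have hfinal := Bd_conj_of_null hprodnull hprod (FreeGroup.mk u0)⁻¹
  have heq : (FreeGroup.mk u0)⁻¹ * ((FreeGroup.mk u0 * FreeGroup.mk w * (FreeGroup.mk v)⁻¹) *
      (FreeGroup.mk u0 * FreeGroup.mk [] * (FreeGroup.mk v)⁻¹)⁻¹) * ((FreeGroup.mk u0)⁻¹)⁻¹ =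
      FreeGroup.mk w := by
    rw [← FreeGroup.one_eq_mk]; group
  rw [heq] at hfinal
  apply hfinal.mono
  have h1 : w.length * Q + Q = (w.length + 1) * Q := by ring
  rw [h1, hQ]
  have h2 : u0.length + w.length * C + 2 ≤ (u0.length + C + 2) * (w.length + 1) := by
    have : (u0.length + C + 2) * (w.length + 1) =
      u0.length * w.length + w.length * C + 2 * w.length + u0.length + C + 2 := by ring
    have h3 : 0 ≤ u0.length * w.length := Nat.zero_le _
    omega
  calc (w.length + 1) * ((u0.length + w.length * C + 2) * D0)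
      ≤ (w.length + 1) * (((u0.length + C + 2) * (w.length + 1)) * D0) := by gcongr
    _ = (u0.length + C + 2) * D0 * (w.length + 1) ^ 2 := by ring

/-- BS(3,5) carries no automatic structure -/
theorem not_automatic {σ : Type*} [Fintype σ] (M : DFA (Fin 2 × Bool) σ)
    (hsurj : ∀ g : P, ∃ w : Wo, w ∈ M.accepts ∧ ev w = g) (k : ℕ)
    (hft : ∀ u v : Wo, u ∈ M.accepts → v ∈ M.accepts →
      ((ev u)⁻¹ * ev v = 1 ∨ ∃ x : Fin 2 × Bool, (ev u)⁻¹ * ev v = ev [x]) →
      ∀ t : ℕ, ∃ w : Wo, w.length ≤ k ∧ ev (u.take t) * ev w = ev (v.take t)) : False := by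
  obtain ⟨K, hK⟩ := quad_of_auto M hsurj k hft
  exact no_quadratic K hK

end Pool.Agent.BSAuto
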