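import Pool.Agent.BSAuto.TreeLen

/-! Metabelian subgroups are abelian, for groups resembling BS(3,5). -/

set_option autoImplicit false

namespace Pool.Agent.BSAuto

open TreeLen
open scoped commutatorElement

/-- arithmetic data of BS(3,5): exponent homomorphism and affine cocycle -/
structure AffData (G : Type*) [Group G] (a : G) where
  /-- exponent sum of the stable letter -/
  e : G → ℤ
  e_mul : ∀ g h, e (g * h) = e g + e h
  e_a : e a = 0
  /-- translation part -/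
  β : G → ℚ
  β_mul : ∀ g h, β (g * h) = β g + (5 / 3 : ℚ) ^ (e g) * β h
  β_a : β a = 1

namespace AffData

variable {G : Type*} [Group G] {a : G} (D : AffData G a)

lemma e_one : D.e 1 = 0 := by
  have := D.e_mul 1 1
  simp at this; exact this

lemma β_one : D.β 1 = 0 := by
  have := D.β_mul 1 1
  simp [D.e_one] at this; exact this

lemma e_inv (g : G) : D.e g⁻¹ = - D.e g := by
  have := D.e_mul g g⁻¹
  rw [mul_inv_cancel, D.e_one] at this
  omega

lemma e_pow (g : G) (n : ℕ) : D.e (g ^ n) = n * D.e g := by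
  induction n with
  | zero => simp [D.e_one]
  | succ n ih => rw [pow_succ, D.e_mul, ih]; push_cast; ring

lemma e_conj (g z : G) : D.e (g * z * g⁻¹) = D.e z := by
  rw [D.e_mul, D.e_mul, D.e_inv]; ring

lemma β_inv (g : G) : D.β g⁻¹ = - (5 / 3 : ℚ) ^ (- D.e g) * D.β g := by
  have := D.β_mul g⁻¹ g
  rw [inv_mul_cancel, D.β_one, D.e_inv] at this
  linarith

lemma β_conj (g z : G) (hz : D.e z = 0) : D.β (g * z * g⁻¹) = (5 / 3 : ℚ) ^ (D.e g) * D.β z := by
  rw [D.β_mul, D.β_mul, D.e_mul, hz, D.β_inv, add_zero]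
  have : (5 / 3 : ℚ) ^ (D.e g) * (5 / 3 : ℚ) ^ (- D.e g) = 1 := by
    rw [← zpow_add₀ (by norm_num)]; simp
  linear_combination (-(D.β g)) * this

lemma β_zpow (z : G) (hz : D.e z = 0) (i : ℤ) : D.β (z ^ i) = i * D.β z := by
  have hpow : ∀ n : ℕ, D.β (z ^ n) = n * D.β z := by
    intro n
    induction n with
    | zero => simp [D.β_one]
    | succ n ih => rw [pow_succ, D.β_mul, ih, D.e_pow, hz]; push_cast; simp; ring
  cases i with
  | ofNat n => simpa using hpow n
  | negSucc n =>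
    rw [zpow_negSucc, D.β_inv, D.e_pow, hz, hpow]; push_cast; simp; ring

lemma e_zpow (z : G) (hz : D.e z = 0) (i : ℤ) : D.e (z ^ i) = 0 := by
  cases i with
  | ofNat n => simp [D.e_pow, hz]
  | negSucc n => rw [zpow_negSucc, D.e_inv, D.e_pow, hz]; simp

lemma ell_form {z : G} (hz : Ell (Subgroup.zpowers a) z) :
    ∃ (u : G) (l : ℤ), z = u * a ^ l * u⁻¹ := by
  obtain ⟨u, hu⟩ := hz
  obtain ⟨l, hl⟩ := Subgroup.mem_zpowers_iff.1 hu
  exact ⟨u, l, by rw [hl]; group⟩

lemma β_form (u : G) (l : ℤ) : D.β (u * a ^ l * u⁻¹) = (5 / 3 : ℚ) ^ (D.e u) * l := by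
  rw [D.β_conj _ _ (D.e_zpow a D.e_a l), D.β_zpow a D.e_a, D.β_a, mul_one]

lemma e_form (u : G) (l : ℤ) : D.e (u * a ^ l * u⁻¹) = 0 := by
  rw [D.e_conj, D.e_zpow a D.e_a l]

end AffData

lemma ell_zpow {G : Type*} [Group G] {A : Subgroup G} {g : G} (h : Ell A g) (n : ℤ) :
    Ell A (g ^ n) := by
  cases n with
  | ofNat n => simpa using ell_pow h n
  | negSucc n => rw [zpow_negSucc]; exact ell_inv (ell_pow h _)

/-- arithmetic core -/
lemma arith_core {l s : ℤ} {N : ℕ} {eu ev : ℤ} (hl : l ≠ 0)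
    (h : (5 / 3 : ℚ) ^ ev * s * 3 ^ N = (5 / 3 : ℚ) ^ eu * l) : (3 : ℤ) ^ N ≤ |l| * |l| := by
  have hs : s ≠ 0 := by
    rintro rfl
    simp at h
    rcases h with h | h
    · exact absurd h (zpow_ne_zero _ (by norm_num))
    · exact hl h
  have hl1 : 1 ≤ |l| := Int.one_le_abs hl
  have hs1 : 1 ≤ |s| := Int.one_le_abs hs
  rcases le_total ev eu with hle | hle
  · obtain ⟨f, hf⟩ := Int.eq_ofNat_of_zero_le (sub_nonneg.2 hle)
    have e1 : eu = ev + f := by omega
    rw [e1, zpow_add₀ (by norm_num), zpow_natCast] at h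
    have hne : (5 / 3 : ℚ) ^ ev ≠ 0 := zpow_ne_zero _ (by norm_num)
    have h2 : (s : ℚ) * 3 ^ N = (5 / 3) ^ f * l := by
      apply mul_left_cancel₀ hne
      linarith
    have h3 : (s : ℚ) * 3 ^ N * 3 ^ f = 5 ^ f * l := by
      rw [h2, div_pow]; field_simp
    have h4 : s * 3 ^ N * 3 ^ f = 5 ^ f * l := by exact_mod_cast h3
    have h5 : (3 : ℤ) ^ N ∣ 5 ^ f * l := ⟨s * 3 ^ f, by rw [← h4]; ring⟩
    have hcop : IsCoprime ((3 : ℤ) ^ N) (5 ^ f) := by
      apply IsCoprime.pow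
      norm_num
    have h6 : (3 : ℤ) ^ N ∣ l := hcop.dvd_of_dvd_mul_left h5
    have h7 : (3 : ℤ) ^ N ≤ |l| := by
      have : (3 : ℤ) ^ N ∣ |l| := (dvd_abs _ _).2 h6
      exact Int.le_of_dvd (by omega) this
    nlinarith
  · obtain ⟨f, hf⟩ := Int.eq_ofNat_of_zero_le (sub_nonneg.2 hle)
    have e1 : ev = eu + f := by omega
    rw [e1, zpow_add₀ (by norm_num), zpow_natCast] at h
    have hne : (5 / 3 : ℚ) ^ eu ≠ 0 := zpow_ne_zero _ (by norm_num)
    have h2 : (5 / 3) ^ f * (s : ℚ) * 3 ^ N = l := by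
      apply mul_left_cancel₀ hne
      linarith
    have h3 : (5 : ℚ) ^ f * s * 3 ^ N = l * 3 ^ f := by
      rw [← h2, div_pow]; field_simp
    have h4 : 5 ^ f * s * 3 ^ N = l * 3 ^ f := by exact_mod_cast h3
    have h5 : (5 : ℤ) ^ f ∣ l * 3 ^ f := ⟨s * 3 ^ N, by rw [← h4]; ring⟩
    have hcop : IsCoprime ((5 : ℤ) ^ f) (3 ^ f) := by
      apply IsCoprime.pow
      norm_num
    have h6 : (5 : ℤ) ^ f ∣ l := hcop.dvd_of_dvd_mul_right h5
    have h7 : (5 : ℤ) ^ f ≤ |l| := by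
      have : (5 : ℤ) ^ f ∣ |l| := (dvd_abs _ _).2 h6
      exact Int.le_of_dvd (by omega) this
    have h8 : |5 ^ f * s * 3 ^ N| = |l * 3 ^ f| := by rw [h4]
    rw [abs_mul, abs_mul, abs_mul, abs_of_pos (show (0 : ℤ) < 5 ^ f by positivity),
      abs_of_pos (show (0 : ℤ) < 3 ^ N by positivity),
      abs_of_pos (show (0 : ℤ) < 3 ^ f by positivity)] at h8
    have h35 : (3 : ℤ) ^ f ≤ 5 ^ f := by gcongr; norm_num
    have h5pos : (1 : ℤ) ≤ 5 ^ f := one_le_pow₀ (by norm_num)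
    have h3pos : (0 : ℤ) < 3 ^ N := by positivity
    calc (3 : ℤ) ^ N = 1 * 1 * 3 ^ N := by ring
      _ ≤ 5 ^ f * |s| * 3 ^ N := by gcongr
      _ = |l| * 3 ^ f := h8
      _ ≤ |l| * 5 ^ f := by gcongr
      _ ≤ |l| * |l| := by gcongr

section main

variable {G : Type*} [Group G] {a : G} (T : TreeLen G (Subgroup.zpowers a)) (D : AffData G a)

include T D

/-- no nontrivial elliptic element in the derived subgroup of a metabelian subgroup -/
lemma no_ell (H : Subgroup G) (hH : ∀ x ∈ ⁅H, H⁆, ∀ y ∈ ⁅H, H⁆, x * y = y * x)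
    (z : G) (hz : z ∈ ⁅H, H⁆) (hell : Ell (Subgroup.zpowers a) z) : z = 1 := by
  by_contra hne
  have hnorm : ∀ g ∈ H, ∀ d ∈ ⁅H, H⁆, g * d * g⁻¹ ∈ ⁅H, H⁆ := by
    intro g hg d hd
    have hle : ⁅H, H⁆ ≤ H := Subgroup.commutator_le_self H
    have h1 : ⁅g, d⁆ ∈ ⁅H, H⁆ := Subgroup.commutator_mem_commutator hg (hle hd)
    have : g * d * g⁻¹ = ⁅g, d⁆ * d := by rw [commutatorElement_def]; group
    rw [this]; exact mul_mem h1 hd
  obtain ⟨u, l, hul⟩ := AffData.ell_form hell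
  have hl : l ≠ 0 := by
    rintro rfl
    apply hne
    rw [hul]; group
  have hez : D.e z = 0 := by rw [hul]; exact D.e_form u l
  have hβz : D.β z = (5 / 3 : ℚ) ^ (D.e u) * l := by rw [hul]; exact D.β_form u l
  -- positive exponent impossible
  have hpos : ∀ g ∈ H, ¬ 0 < D.e g := by
    intro g hg hk
    obtain ⟨k, hk'⟩ := Int.eq_ofNat_of_zero_le hk.le
    have hk1 : 1 ≤ k := by omega
    set n : ℕ := (|l| * |l|).toNat + 1 with hn
    set N : ℕ := k * n with hN
    obtain ⟨i, j, hij⟩ : ∃ i j : ℤ, i * 3 ^ N + j * 5 ^ N = 1 := by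
      have : IsCoprime ((3 : ℤ) ^ N) (5 ^ N) := by
        apply IsCoprime.pow
        norm_num
      obtain ⟨i, j, h⟩ := this
      exact ⟨i, j, h⟩
    set w : G := g ^ n * z * (g ^ n)⁻¹ with hw
    have hwD : w ∈ ⁅H, H⁆ := hnorm _ (pow_mem hg n) _ hz
    have hwE : Ell (Subgroup.zpowers a) w := ell_conj hell _
    have hew : D.e w = 0 := by rw [hw, D.e_conj, hez]
    have hβw : D.β w = (5 / 3 : ℚ) ^ N * D.β z := by
      rw [hw, D.β_conj _ _ hez, D.e_pow, hk', hN]
      congr 1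
      rw [← zpow_natCast]
      congr 1
      push_cast; ring
    have hcomm : Commute (z ^ i) (w ^ j) := by
      have : Commute z w := hH z hz w hwD
      exact this.zpow_zpow i j
    set y : G := z ^ i * w ^ j with hy
    have hyE : Ell (Subgroup.zpowers a) y := T.ell_mul hcomm (ell_zpow hell i) (ell_zpow hwE j)
    obtain ⟨v, s, hvs⟩ := AffData.ell_form hyE
    have hβy : D.β y = (5 / 3 : ℚ) ^ (D.e v) * s := by rw [hvs]; exact D.β_form v s
    have hβy2 : D.β y = i * D.β z + j * ((5 / 3 : ℚ) ^ N * D.β z) := by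
      rw [hy, D.β_mul, D.e_zpow z hez, D.β_zpow z hez, D.β_zpow w hew, hβw]; simp
    have hkey : D.β y * 3 ^ N = D.β z := by
      rw [hβy2]
      have hijQ : (i : ℚ) * 3 ^ N + j * 5 ^ N = 1 := by exact_mod_cast hij
      have h53 : (5 / 3 : ℚ) ^ N * 3 ^ N = 5 ^ N := by
        rw [← mul_pow]; norm_num
      calc (↑i * D.β z + ↑j * ((5 / 3) ^ N * D.β z)) * 3 ^ N
          = (i * 3 ^ N + j * ((5 / 3) ^ N * 3 ^ N)) * D.β z := by ring
        _ = (i * 3 ^ N + j * 5 ^ N) * D.β z := by rw [h53]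
        _ = D.β z := by rw [hijQ]; ring
    rw [hβy, hβz] at hkey
    have hbound := arith_core hl hkey
    have hN' : n ≤ N := by rw [hN]; nlinarith
    have h3 : (n : ℤ) < 3 ^ N := by
      have h1 : n < 3 ^ n := Nat.lt_pow_self (by norm_num)
      have h2 : 3 ^ n ≤ 3 ^ N := Nat.pow_le_pow_right (by norm_num) hN'
      exact_mod_cast lt_of_lt_of_le h1 h2
    have h4 : |l| * |l| < n := by
      rw [hn]; push_cast
      have : |l| * |l| ≤ ((|l| * |l|).toNat : ℤ) := Int.self_le_toNat _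
      omega
    omega
  have hzero : ∀ g ∈ H, D.e g = 0 := by
    intro g hg
    have h1 := hpos g hg
    have h2 := hpos g⁻¹ (inv_mem hg)
    rw [D.e_inv] at h2
    omega
  -- the cocycle vanishes on the derived subgroup
  let K : Subgroup G :=
    { carrier := {g | D.e g = 0 ∧ D.β g = 0}
      one_mem' := ⟨D.e_one, D.β_one⟩
      mul_mem' := by
        rintro x y ⟨h1, h2⟩ ⟨h3, h4⟩
        exact ⟨by rw [D.e_mul, h1, h3]; rfl, by rw [D.β_mul, h2, h4]; simp⟩
      inv_mem' := by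
        rintro x ⟨h1, h2⟩
        exact ⟨by rw [D.e_inv, h1]; rfl, by rw [D.β_inv, h2]; simp⟩ }
  have hK : ⁅H, H⁆ ≤ K := by
    rw [Subgroup.commutator_le]
    intro x hx y hy
    have hx0 := hzero x hx
    have hy0 := hzero y hy
    refine ⟨?_, ?_⟩
    · rw [commutatorElement_def, D.e_mul, D.e_mul, D.e_mul, D.e_inv, D.e_inv]; ring
    · rw [commutatorElement_def, D.β_mul, D.β_mul, D.β_mul, D.β_inv, D.β_inv, D.e_mul, D.e_mul,
        D.e_inv, D.e_mul, hx0, hy0]
      simp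
  have hβ0 : D.β z = 0 := (hK hz).2
  rw [hβz] at hβ0
  rcases mul_eq_zero.1 hβ0 with h | h
  · exact absurd h (zpow_ne_zero _ (by norm_num))
  · exact hl (by exact_mod_cast h)

theorem metab_abelian (H : Subgroup G) (hH : ∀ x ∈ ⁅H, H⁆, ∀ y ∈ ⁅H, H⁆, x * y = y * x) :
    ∀ x ∈ H, ∀ y ∈ H, x * y = y * x := by
  intro x hx y hy
  by_contra hxy
  set c : G := ⁅x, y⁆ with hc
  have hcD : c ∈ ⁅H, H⁆ := Subgroup.commutator_mem_commutator hx hy
  have hc1 : c ≠ 1 := by
    intro h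
    exact hxy (commutatorElement_eq_one_iff_mul_comm.1 h)
  have hcE : ¬ Ell (Subgroup.zpowers a) c := fun h => hc1 (no_ell T D H hH c hcD h)
  have hnorm : ∀ g ∈ H, ∀ d ∈ ⁅H, H⁆, g * d * g⁻¹ ∈ ⁅H, H⁆ := by
    intro g hg d hd
    have hle : ⁅H, H⁆ ≤ H := Subgroup.commutator_le_self H
    have h1 : ⁅g, d⁆ ∈ ⁅H, H⁆ := Subgroup.commutator_mem_commutator hg (hle hd)
    have : g * d * g⁻¹ = ⁅g, d⁆ * d := by rw [commutatorElement_def]; group
    rw [this]; exact mul_mem h1 hd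
  obtain ⟨m, hm, hTL⟩ := (T.ell_or_TL c).resolve_left hcE
  have hcent : ∀ g ∈ H, g * c = c * g := by
    intro g hg
    have hgc : g * c * g⁻¹ ∈ ⁅H, H⁆ := hnorm g hg c hcD
    have hcomm : Commute (g * c * g⁻¹) c := hH _ hgc _ hcD
    rcases T.rank_one hcomm (T.TL_conj hTL g) hTL with h | h
    · exfalso
      have h1 := no_ell T D H hH _ (mul_mem hgc hcD) h
      exact T.no_flip hcE (eq_inv_of_mul_eq_one_left h1)
    · have h1 := no_ell T D H hH _ (mul_mem hgc (inv_mem hcD)) h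
      have h2 : g * c * g⁻¹ = c := by rwa [mul_inv_eq_one] at h1
      exact mul_inv_eq_iff_eq_mul.1 h2
  have hxc := hcent x hx
  have hyc := hcent y hy
  have h1 : ∀ n : ℕ, x ^ n * y = c ^ n * (y * x ^ n) := by
    intro n
    induction n with
    | zero => simp
    | succ n ih =>
      have hxy1 : x * y = c * (y * x) := by rw [hc, commutatorElement_def]; group
      have hcx : c ^ n * x = x * c ^ n := by
        have : Commute c x := hxc.symm
        exact (this.pow_left n).eq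
      calc x ^ (n + 1) * y = x ^ n * (x * y) := by rw [pow_succ]; group
        _ = x ^ n * (c * (y * x)) := by rw [hxy1]
        _ = c * (x ^ n * y) * x := by
            have : Commute c (x ^ n) := (show Commute c x from hxc.symm).pow_right n
            calc x ^ n * (c * (y * x)) = (x ^ n * c) * (y * x) := by group
              _ = (c * x ^ n) * (y * x) := by rw [this.eq]
              _ = _ := by group
        _ = c * (c ^ n * (y * x ^ n)) * x := by rw [ih]
        _ = c ^ (n + 1) * (y * x ^ (n + 1)) := by rw [pow_succ', pow_succ]; group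
  have h2 : ∀ n m : ℕ, x ^ n * y ^ m = c ^ (n * m) * (y ^ m * x ^ n) := by
    intro n m
    induction m with
    | zero => simp
    | succ m ih =>
      have hcy : Commute (c ^ n) (y ^ m) := (show Commute c y from hyc.symm).pow_pow n m
      calc x ^ n * y ^ (m + 1) = (x ^ n * y ^ m) * y := by rw [pow_succ]; group
        _ = c ^ (n * m) * (y ^ m * (x ^ n * y)) := by rw [ih]; group
        _ = c ^ (n * m) * (y ^ m * (c ^ n * (y * x ^ n))) := by rw [h1]
        _ = c ^ (n * m) * ((y ^ m * c ^ n) * (y * x ^ n)) := by group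
        _ = c ^ (n * m) * ((c ^ n * y ^ m) * (y * x ^ n)) := by rw [hcy.eq]
        _ = (c ^ (n * m) * c ^ n) * (y ^ m * y * x ^ n) := by group
        _ = _ := by rw [← pow_add, ← pow_succ]; congr 2
  have hlenpow : ∀ (g : G) (n : ℕ), T.len (g ^ n) ≤ n * T.len g := by
    intro g n
    induction n with
    | zero => simp [T.len_one]
    | succ n ih =>
      have := T.mul_le (g ^ n) g
      rw [pow_succ]; nlinarith
  obtain ⟨C, hC⟩ := hTL
  set n : ℕ := 2 * (T.len x + T.len y) + C + 1 with hn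
  have h3 : c ^ (n * n) = x ^ n * y ^ n * (x ^ n)⁻¹ * (y ^ n)⁻¹ := by
    rw [h2 n n]; group
  have h4 : T.len (c ^ (n * n)) ≤ 2 * (n * T.len x) + 2 * (n * T.len y) := by
    rw [h3]
    have a1 := T.mul_le (x ^ n * y ^ n * (x ^ n)⁻¹) (y ^ n)⁻¹
    have a2 := T.mul_le (x ^ n * y ^ n) (x ^ n)⁻¹
    have a3 := T.mul_le (x ^ n) (y ^ n)
    rw [T.inv_eq] at a1 a2
    have a4 := hlenpow x n
    have a5 := hlenpow y n
    omega
  have h5 := (hC (n * n)).1
  have h6 : n * n * 1 ≤ n * n * m := Nat.mul_le_mul_left _ hm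
  have h7 : n * n ≤ n * (2 * (T.len x + T.len y)) + C := by nlinarith
  have h8 : n * n = n * (2 * (T.len x + T.len y)) + n * (C + 1) := by
    conv_lhs => rw [hn]
    rw [hn]; ring
  have h9 : C + 1 ≤ n * (C + 1) := by
    have : 1 ≤ n := by omega
    nlinarith
  omega

end main

end Pool.Agent.BSAuto
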