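import Pool.Agent.BSAuto.HNNTree
import Pool.Agent.BSAuto.Metab

/-! The group BS(3,5): metabelian subgroups are abelian. -/

set_option autoImplicit false

namespace Pool.Agent.BSAuto

open TreeLen
open scoped commutatorElement

/-- the relator `t a^3 t^-1 a^-5` -/
def r0 : FreeGroup (Fin 2) :=
  FreeGroup.of 1 * FreeGroup.of 0 ^ 3 * (FreeGroup.of 1)⁻¹ * (FreeGroup.of 0 ^ 5)⁻¹

/-- BS(3,5) -/
abbrev P : Type := PresentedGroup ({r0} : Set (FreeGroup (Fin 2)))

/-- generator `a` -/
def pa : P := PresentedGroup.of 0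
/-- generator `t` -/
def pt : P := PresentedGroup.of 1

lemma rel_P : pt * pa ^ 3 * pt⁻¹ = pa ^ 5 := by
  have h : (PresentedGroup.mk ({r0} : Set (FreeGroup (Fin 2))))
      (FreeGroup.of 1 * FreeGroup.of 0 ^ 3 * (FreeGroup.of 1)⁻¹ * (FreeGroup.of 0 ^ 5)⁻¹) = 1 :=
    PresentedGroup.one_of_mem (Set.mem_singleton r0)
  simp only [map_mul, map_pow, map_inv] at h
  exact mul_inv_eq_one.1 h

lemma P_ext {H : Type*} [Group H] {f g : P →* H} (ha : f pa = g pa) (ht : f pt = g pt) :
    f = g := by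
  apply PresentedGroup.ext
  intro x
  fin_cases x
  · exact ha
  · exact ht

/-- homomorphism out of `P` -/
noncomputable def liftP {H : Type*} [Group H] (x y : H) (h : y * x ^ 3 * y⁻¹ = x ^ 5) : P →* H :=
  PresentedGroup.toGroup (f := ![x, y]) (by
    intro r hr
    rw [Set.mem_singleton_iff] at hr
    subst hr
    simp [r0, h])

@[simp] lemma liftP_pa {H : Type*} [Group H] (x y : H) (h : y * x ^ 3 * y⁻¹ = x ^ 5) :
    liftP x y h pa = x := by
  simp [liftP, pa]

@[simp] lemma liftP_pt {H : Type*} [Group H] (x y : H) (h : y * x ^ 3 * y⁻¹ = x ^ 5) :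
    liftP x y h pt = y := by
  simp [liftP, pt]

/-! ### The isomorphism with an HNN extension -/

/-- k-th power map on the integers -/
def pw (k : ℕ) : Multiplicative ℤ →* Multiplicative ℤ := powMonoidHom k

lemma pw_inj (k : ℕ) (hk : k ≠ 0) : Function.Injective (pw k) := by
  intro x y h
  have h1 : x ^ k = y ^ k := h
  have h2 : (k : ℤ) * Multiplicative.toAdd x = k * Multiplicative.toAdd y := by
    have := congrArg Multiplicative.toAdd h1
    simpa using this
  have h3 : Multiplicative.toAdd x = Multiplicative.toAdd y := by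
    apply mul_left_cancel₀ _ h2
    exact_mod_cast hk
  exact h3

/-- 3Z -/
abbrev A3 : Subgroup (Multiplicative ℤ) := (pw 3).range
/-- 5Z -/
abbrev B5 : Subgroup (Multiplicative ℤ) := (pw 5).range

/-- the isomorphism 3k ↦ 5k -/
noncomputable def phi : A3 ≃* B5 :=
  (MonoidHom.ofInjective (pw_inj 3 (by norm_num))).symm.trans
    (MonoidHom.ofInjective (pw_inj 5 (by norm_num)))

lemma phi_apply (y : Multiplicative ℤ) : (phi ⟨y ^ 3, ⟨y, rfl⟩⟩ : Multiplicative ℤ) = y ^ 5 := by
  have h : (⟨y ^ 3, ⟨y, rfl⟩⟩ : A3) = MonoidHom.ofInjective (pw_inj 3 (by norm_num)) y := by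
    apply Subtype.ext; rfl
  rw [h, phi, MulEquiv.trans_apply, MulEquiv.symm_apply_apply]
  rfl

/-- the HNN extension -/
abbrev HB : Type := HNNExtension (Multiplicative ℤ) A3 B5 phi

/-- generator of the integers -/
def one1 : Multiplicative ℤ := Multiplicative.ofAdd 1

/-- map to the HNN extension -/
noncomputable def toHB : P →* HB :=
  liftP (HNNExtension.of one1) HNNExtension.t (by
    have h := HNNExtension.equiv_eq_conj (φ := phi) ⟨one1 ^ 3, ⟨one1, rfl⟩⟩
    rw [phi_apply] at h
    rw [← map_pow, ← map_pow]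
    exact h.symm)

lemma pt_pa_zpow (k : ℤ) : pt * (pa ^ k) ^ 3 = (pa ^ k) ^ 5 * pt := by
  have h : pt * pa ^ 3 = pa ^ 5 * pt := by rw [← rel_P]; group
  have h1 : ∀ k : ℤ, pt * (pa ^ 3) ^ k * pt⁻¹ = (pa ^ 5) ^ k := by
    intro k
    rw [← rel_P, conj_zpow]
  have h2 := h1 k
  have e1 : (pa ^ 3) ^ k = (pa ^ k) ^ 3 := by
    rw [← zpow_natCast, ← zpow_natCast, ← zpow_mul, ← zpow_mul, mul_comm]
  have e2 : (pa ^ 5) ^ k = (pa ^ k) ^ 5 := by
    rw [← zpow_natCast, ← zpow_natCast, ← zpow_mul, ← zpow_mul, mul_comm]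
  rw [e1, e2] at h2
  rw [← h2]; group

/-- map from the HNN extension -/
noncomputable def ofHB : HB →* P :=
  HNNExtension.lift (zpowersHom P pa) pt (by
    rintro ⟨a, y, rfl⟩
    have h1 : (phi ⟨pw 3 y, ⟨y, rfl⟩⟩ : Multiplicative ℤ) = y ^ 5 := phi_apply y
    rw [h1]
    have h2 : pw 3 y = y ^ 3 := rfl
    simp only [h2, map_pow]
    exact pt_pa_zpow _)

lemma toHB_pa : toHB pa = HNNExtension.of one1 := by simp [toHB]
lemma toHB_pt : toHB pt = HNNExtension.t := by simp [toHB]
lemma ofHB_of (x : Multiplicative ℤ) : ofHB (HNNExtension.of x) = pa ^ (Multiplicative.toAdd x) := by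
  simp [ofHB]
lemma ofHB_t : ofHB HNNExtension.t = pt := by simp [ofHB]

/-- BS(3,5) as HNN extension -/
noncomputable def isoHB : P ≃* HB :=
  MonoidHom.toMulEquiv toHB ofHB
    (by
      apply P_ext
      · simp [toHB_pa, ofHB_of, one1]
      · simp [toHB_pt, ofHB_t])
    (by
      apply HNNExtension.hom_ext
      · apply MonoidHom.ext_mint
        simp [ofHB_of, toHB_pa, one1]
      · simp [ofHB_t, toHB_pt])

lemma isoHB_apply (g : P) : isoHB g = toHB g := rfl

lemma mem_range_iff (g : P) : g ∈ Subgroup.zpowers pa ↔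
    isoHB g ∈ (HNNExtension.of.range : Subgroup HB) := by
  constructor
  · intro h
    obtain ⟨k, rfl⟩ := Subgroup.mem_zpowers_iff.1 h
    refine ⟨one1 ^ k, ?_⟩
    rw [isoHB_apply, map_zpow, map_zpow, toHB_pa]
  · rintro ⟨x, hx⟩
    have h : g = ofHB (HNNExtension.of x) := by
      rw [hx]
      exact (isoHB.symm_apply_apply g).symm
    rw [h, ofHB_of]
    exact Subgroup.mem_zpowers_iff.2 ⟨_, rfl⟩

lemma odd_sub (u : ℤˣ) (x : Multiplicative ℤ) (h : x ^ 2 ∈ HNNExtension.toSubgroup A3 B5 u) :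
    x ∈ HNNExtension.toSubgroup A3 B5 u := by
  rcases Int.units_eq_one_or u with rfl | rfl
  · obtain ⟨y, hy⟩ := h
    refine ⟨x * y⁻¹, ?_⟩
    have h1 : y ^ 3 = x ^ 2 := hy
    change (x * y⁻¹) ^ 3 = x
    rw [mul_pow, inv_pow, h1, pow_succ]
    group
  · obtain ⟨y, hy⟩ := h
    refine ⟨x * (y⁻¹) ^ 2, ?_⟩
    have h1 : y ^ 5 = x ^ 2 := hy
    change (x * (y⁻¹) ^ 2) ^ 5 = x
    rw [mul_pow, ← pow_mul, inv_pow]
    have h2 : y ^ (2 * 5) = x ^ 4 := by
      rw [mul_comm, pow_mul, h1, ← pow_mul]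
    rw [h2, pow_succ]
    group

/-- the tree length function on BS(3,5) -/
noncomputable def treeP : TreeLen P (Subgroup.zpowers pa) :=
  (treeLenHNN phi odd_sub).comap isoHB _ mem_range_iff

/-! ### affine action on ℚ × ℤ -/

/-- `a` acts as translation -/
def permA : Equiv.Perm (ℚ × ℤ) where
  toFun p := (p.1 + 1, p.2)
  invFun p := (p.1 - 1, p.2)
  left_inv p := by simp
  right_inv p := by simp

/-- `t` acts as scaling and shift -/
def permT : Equiv.Perm (ℚ × ℤ) where
  toFun p := (5 / 3 * p.1, p.2 + 1)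
  invFun p := (3 / 5 * p.1, p.2 - 1)
  left_inv p := by ext <;> simp; ring
  right_inv p := by ext <;> simp; ring

lemma permA_pow (n : ℕ) (p : ℚ × ℤ) : (permA ^ n) p = (p.1 + n, p.2) := by
  induction n generalizing p with
  | zero => simp
  | succ n ih =>
    rw [pow_succ, Equiv.Perm.mul_apply, ih]
    simp [permA]; ring

lemma rel_perm : permT * permA ^ 3 * permT⁻¹ = permA ^ 5 := by
  ext p
  · simp only [Equiv.Perm.mul_apply, permA_pow]
    simp [permT, Equiv.Perm.inv_def]; ring
  · simp only [Equiv.Perm.mul_apply, permA_pow]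
    simp [permT, Equiv.Perm.inv_def]

/-- the action -/
noncomputable def act : P →* Equiv.Perm (ℚ × ℤ) := liftP permA permT rel_perm

@[simp] lemma act_pa (p : ℚ × ℤ) : act pa p = (p.1 + 1, p.2) := by
  simp [act, permA]

@[simp] lemma act_pt (p : ℚ × ℤ) : act pt p = (5 / 3 * p.1, p.2 + 1) := by
  simp [act, permT]

lemma act_form (g : P) : ∀ p : ℚ × ℤ,
    act g p = ((5 / 3 : ℚ) ^ (act g (0, 0)).2 * p.1 + (act g (0, 0)).1, p.2 + (act g (0, 0)).2) := by
  let S : Subgroup P :=
    { carrier := {g | ∀ p : ℚ × ℤ, act g p =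
        ((5 / 3 : ℚ) ^ (act g (0, 0)).2 * p.1 + (act g (0, 0)).1, p.2 + (act g (0, 0)).2)}
      one_mem' := by intro p; simp
      mul_mem' := by
        intro x y hx hy p
        rw [map_mul, Equiv.Perm.mul_apply, Equiv.Perm.mul_apply, hx (act y p), hx (act y (0, 0)),
          hy p]
        ext
        · simp only
          rw [zpow_add₀ (by norm_num)]
          ring
        · simp only; ring
      inv_mem' := by
        intro x hx p
        have h1 := hx (act x⁻¹ p)
        have h2 := hx (act x⁻¹ (0, 0))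
        have h3 : ∀ q, act x (act x⁻¹ q) = q := by
          intro q; rw [← Equiv.Perm.mul_apply, ← map_mul]; simp
        rw [h3] at h1 h2
        have a1 := congrArg Prod.fst h1
        have a2 := congrArg Prod.snd h1
        have a3 := congrArg Prod.fst h2
        have a4 := congrArg Prod.snd h2
        simp only at a1 a2 a3 a4
        have hne : (5 / 3 : ℚ) ^ (act x (0, 0)).2 ≠ 0 := zpow_ne_zero _ (by norm_num)
        have hz : (act x⁻¹ (0, 0)).2 = - (act x (0, 0)).2 := by omega
        ext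
        · simp only
          rw [hz, zpow_neg]
          field_simp
          linarith
        · simp only; omega }
  have hS : S = ⊤ := by
    rw [eq_top_iff]
    intro g _
    apply PresentedGroup.generated_by
    intro j
    fin_cases j
    · intro p
      have h := act_pa
      change act pa p = ((5 / 3 : ℚ) ^ (act pa (0, 0)).2 * p.1 + (act pa (0, 0)).1,
        p.2 + (act pa (0, 0)).2)
      simp
    · intro p
      change act pt p = ((5 / 3 : ℚ) ^ (act pt (0, 0)).2 * p.1 + (act pt (0, 0)).1,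
        p.2 + (act pt (0, 0)).2)
      simp
  have : g ∈ S := by rw [hS]; trivial
  exact this

/-- affine data -/
noncomputable def affP : AffData P pa where
  e g := (act g (0, 0)).2
  e_mul g h := by
    rw [map_mul, Equiv.Perm.mul_apply, act_form g (act h (0, 0))]
    simp only; ring
  e_a := by simp
  β g := (act g (0, 0)).1
  β_mul g h := by
    rw [map_mul, Equiv.Perm.mul_apply, act_form g (act h (0, 0))]
    simp only; ring
  β_a := by simp

theorem metabelian_abelian (H : Subgroup P) (hH : derivedSeries (↥H) 2 = ⊥) :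
    ∀ a b : ↥H, a * b = b * a := by
  have h1 : ∀ x ∈ ⁅H, H⁆, ∀ y ∈ ⁅H, H⁆, x * y = y * x := by
    have h2 : derivedSeries (↥H) 2 = ⁅commutator ↥H, commutator ↥H⁆ := by
      rw [derivedSeries_succ, derivedSeries_one]
    rw [h2, Subgroup.commutator_eq_bot_iff_le_centralizer] at hH
    intro x hx y hy
    rw [← Subgroup.map_subtype_commutator] at hx hy
    obtain ⟨x', hx', rfl⟩ := hx
    obtain ⟨y', hy', rfl⟩ := hy
    have := hH hx'
    rw [Subgroup.mem_centralizer_iff] at this
    have h3 := this y' hy'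
    have h4 := congrArg (Subgroup.subtype H) h3
    simpa using h4.symm
  have h5 := metab_abelian treeP affP H h1
  rintro ⟨a, ha⟩ ⟨b, hb⟩
  apply Subtype.ext
  exact h5 a ha b hb

end Pool.Agent.BSAuto
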