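import Pool.Agent.BSAuto.BS35

/-! A crossed homomorphism on the free group measuring area in BS(3,5). -/

set_option autoImplicit false

namespace Pool.Agent.BSAuto

/-- the set acted on -/
abbrev X : Type := ℚ × ℤ

/-- pairs (function, permutation) with crossed multiplication -/
@[ext] structure Cr where
  /-- function part -/
  f : X → ℤ
  /-- permutation part -/
  s : Equiv.Perm X

namespace Cr

instance : Mul Cr := ⟨fun a b => ⟨fun x => a.f x + b.f (a.s⁻¹ x), a.s * b.s⟩⟩
instance : One Cr := ⟨⟨fun _ => 0, 1⟩⟩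
instance : Inv Cr := ⟨fun a => ⟨fun x => - a.f (a.s x), a.s⁻¹⟩⟩

lemma mul_f (a b : Cr) (x : X) : (a * b).f x = a.f x + b.f (a.s⁻¹ x) := rfl
lemma mul_s (a b : Cr) : (a * b).s = a.s * b.s := rfl
lemma one_f (x : X) : (1 : Cr).f x = 0 := rfl
lemma one_s : (1 : Cr).s = 1 := rfl
lemma inv_f (a : Cr) (x : X) : (a⁻¹).f x = - a.f (a.s x) := rfl
lemma inv_s (a : Cr) : (a⁻¹).s = a.s⁻¹ := rfl

instance : Group Cr := Group.ofLeftAxioms
  (by
    intro a b c
    refine Cr.ext (funext fun x => ?_) ?_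
    · simp only [mul_f, mul_s, mul_inv_rev, Equiv.Perm.mul_apply]; ring
    · simp only [mul_s, mul_assoc])
  (by
    intro a
    refine Cr.ext (funext fun x => ?_) ?_
    · simp [mul_f, one_f, one_s]
    · simp [mul_s, one_s])
  (by
    intro a
    refine Cr.ext (funext fun x => ?_) ?_
    · simp [mul_f, inv_f, inv_s, one_f]
    · simp [mul_s, inv_s, one_s])

end Cr

/-- half line indicator -/
noncomputable def tau : X → ℤ := by
  classical exact fun x => if x.2 = 0 ∧ ∃ i : ℕ, x.1 = 5 * i then 1 else 0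

/-- the free group -/
abbrev F : Type := FreeGroup (Fin 2)

/-- the crossed homomorphism -/
noncomputable def Phi : F →* Cr := FreeGroup.lift ![⟨fun _ => 0, permA⟩, ⟨tau, permT⟩]

/-- projection to BS(3,5) -/
noncomputable def mkP : F →* P := PresentedGroup.mk ({r0} : Set F)

/-- generators -/
def fa : F := FreeGroup.of 0
/-- generators -/
def ft : F := FreeGroup.of 1

/-- function part -/
noncomputable def Df (g : F) (x : X) : ℤ := (Phi g).f x

lemma Phi_fa : Phi fa = ⟨fun _ => 0, permA⟩ := by simp [Phi, fa]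
lemma Phi_ft : Phi ft = ⟨tau, permT⟩ := by simp [Phi, ft]

lemma mkP_fa : mkP fa = pa := rfl
lemma mkP_ft : mkP ft = pt := rfl

lemma F_hom_ext {H : Type*} [Group H] {f g : F →* H} (ha : f fa = g fa) (ht : f ft = g ft) :
    f = g := by
  apply FreeGroup.ext_hom
  intro x
  fin_cases x
  · exact ha
  · exact ht

lemma Phi_s (g : F) : (Phi g).s = act (mkP g) := by
  let f1 : F →* Equiv.Perm X :=
    { toFun := fun g => (Phi g).s
      map_one' := by rw [map_one]; rfl
      map_mul' := fun x y => by rw [map_mul]; rfl }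
  have : f1 = act.comp mkP := by
    apply F_hom_ext
    · change (Phi fa).s = act (mkP fa)
      rw [Phi_fa, mkP_fa, act, liftP_pa]
    · change (Phi ft).s = act (mkP ft)
      rw [Phi_ft, mkP_ft, act, liftP_pt]
  exact DFunLike.congr_fun this g

lemma Df_one (x : X) : Df 1 x = 0 := by
  simp only [Df, map_one]; rfl

lemma Df_mul (g h : F) (x : X) : Df (g * h) x = Df g x + Df h ((act (mkP g))⁻¹ x) := by
  simp only [Df, map_mul, Cr.mul_f, Phi_s]

lemma Df_inv (g : F) (x : X) : Df g⁻¹ x = - Df g (act (mkP g) x) := by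
  simp only [Df, map_inv, Cr.inv_f, Phi_s]

lemma Df_fa (x : X) : Df fa x = 0 := by simp [Df, Phi_fa]
lemma Df_ft (x : X) : Df ft x = tau x := by simp [Df, Phi_ft]

/-- bounded l^1 norm -/
def Bd (f : X → ℤ) (n : ℕ) : Prop := ∀ s : Finset X, ∑ x ∈ s, |f x| ≤ n

lemma Bd.mono {f : X → ℤ} {m n : ℕ} (h : Bd f m) (hmn : m ≤ n) : Bd f n := by
  intro s
  have := h s
  have : (m : ℤ) ≤ n := by exact_mod_cast hmn
  linarith [h s]

lemma Bd.comp {f : X → ℤ} {n : ℕ} (h : Bd f n) (e : Equiv.Perm X) : Bd (fun x => f (e x)) n := by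
  intro s
  have := h (s.map e.toEmbedding)
  simpa using this

lemma Bd.add {f g : X → ℤ} {m n : ℕ} (hf : Bd f m) (hg : Bd g n) :
    Bd (fun x => f x + g x) (m + n) := by
  intro s
  calc ∑ x ∈ s, |f x + g x| ≤ ∑ x ∈ s, (|f x| + |g x|) :=
        Finset.sum_le_sum fun x _ => abs_add_le _ _
    _ = ∑ x ∈ s, |f x| + ∑ x ∈ s, |g x| := Finset.sum_add_distrib
    _ ≤ m + n := add_le_add (hf s) (hg s)
    _ = ((m + n : ℕ) : ℤ) := by push_cast; ring

lemma Bd.neg {f : X → ℤ} {n : ℕ} (h : Bd f n) : Bd (fun x => - f x) n := by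
  intro s
  simpa using h s

lemma Bd_mul_of_null {g h : F} {m n : ℕ} (hg1 : mkP g = 1) (hg : Bd (Df g) m) (hh : Bd (Df h) n) :
    Bd (Df (g * h)) (m + n) := by
  have : Df (g * h) = fun x => Df g x + Df h x := by
    ext x; rw [Df_mul, hg1]; simp
  rw [this]; exact hg.add hh

lemma Bd_inv_of_null {g : F} {m : ℕ} (hg1 : mkP g = 1) (hg : Bd (Df g) m) :
    Bd (Df g⁻¹) m := by
  have : Df g⁻¹ = fun x => - Df g x := by
    ext x; rw [Df_inv, hg1]; simp
  rw [this]; exact hg.neg

lemma Bd_conj_of_null {g : F} {m : ℕ} (hg1 : mkP g = 1) (hg : Bd (Df g) m) (h : F) :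
    Bd (Df (h * g * h⁻¹)) m := by
  have : Df (h * g * h⁻¹) = fun x => Df g ((act (mkP h))⁻¹ x) := by
    ext x
    rw [Df_mul, Df_mul, Df_inv, map_mul, hg1, mul_one, ← Equiv.Perm.mul_apply, mul_inv_cancel]
    simp
  rw [this]
  exact hg.comp _

/-- the value on the relator is a delta function -/
lemma Df_r0_aux (x : X) : Df r0 x = tau x - tau (x.1 - 5, x.2) := by
  have h1 : r0 = ft * fa ^ 3 * ft⁻¹ * (fa ^ 5)⁻¹ := rfl
  have hpow : ∀ (n : ℕ) (x : X), Df (fa ^ n) x = 0 := by
    intro n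
    induction n with
    | zero => intro x; rw [pow_zero, Df_one]
    | succ n ih => intro x; rw [pow_succ, Df_mul, ih, Df_fa]; simp
  rw [h1, Df_mul, Df_mul, Df_mul, Df_inv, Df_inv, hpow, hpow, Df_ft, Df_ft]
  have h2 : (act (mkP ft)) ((act (mkP (ft * fa ^ 3)))⁻¹ x) = (x.1 - 5, x.2) := by
    have h3 : act (mkP ft) * (act (mkP (ft * fa ^ 3)))⁻¹ = (act (pa ^ 5))⁻¹ := by
      have h5 : pt * (pt * pa ^ 3)⁻¹ = (pt * pa ^ 3 * pt⁻¹)⁻¹ := by group
      have h6 : mkP (ft * fa ^ 3) = pt * pa ^ 3 := by rw [map_mul, map_pow, mkP_ft, mkP_fa]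
      rw [← rel_P, h6, mkP_ft, ← map_inv, ← map_inv, ← map_mul, h5]
    rw [← Equiv.Perm.mul_apply, h3, Equiv.Perm.inv_eq_iff_eq, map_pow]
    have h4 : act pa = permA := by simp [act]
    rw [h4, permA_pow]
    ext <;> simp
  rw [h2]
  ring

lemma Bd_r0 : Bd (Df r0) 1 := by
  classical
  have h : ∀ x : X, |Df r0 x| = if x = (0, 0) then 1 else 0 := by
    intro x
    rw [Df_r0_aux]
    by_cases h0 : x = (0, 0)
    · subst h0
      simp only [tau]
      have h1 : ∃ i : ℕ, (0 : ℚ) = 5 * i := ⟨0, by simp⟩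
      have h2 : ¬ ∃ i : ℕ, (0 : ℚ) - 5 = 5 * i := by
        rintro ⟨i, hi⟩
        have : (0 : ℚ) ≤ i := Nat.cast_nonneg i
        linarith
      simp only [h1, h2]
      simp
    · have key : (x.2 = 0 ∧ ∃ i : ℕ, x.1 = 5 * i) ↔ (x.2 = 0 ∧ ∃ i : ℕ, x.1 - 5 = 5 * i) := by
        constructor
        · rintro ⟨h1, i, hi⟩
          refine ⟨h1, ?_⟩
          rcases i with _ | i
          · exfalso; apply h0
            ext
            · simpa using hi
            · exact h1
          · exact ⟨i, by rw [hi]; push_cast; ring⟩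
        · rintro ⟨h1, i, hi⟩
          exact ⟨h1, i + 1, by push_cast; linarith⟩
      have h3 : tau x = tau (x.1 - 5, x.2) := by
        simp only [tau]
        by_cases hc : (x.2 = 0 ∧ ∃ i : ℕ, x.1 = 5 * i)
        · rw [if_pos hc, if_pos (key.1 hc)]
        · rw [if_neg hc, if_neg (fun h => hc (key.2 h))]
      rw [h3]; simp [h0]
  intro s
  simp only [h]
  rw [Finset.sum_ite_eq']
  split_ifs <;> simp

/-- every null-homotopic element has bounded cocycle value -/
lemma exists_Bd (g : F) (hg : mkP g = 1) : ∃ n, Bd (Df g) n := by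
  let S : Subgroup F :=
    { carrier := {g | mkP g = 1 ∧ ∃ n, Bd (Df g) n}
      one_mem' := ⟨map_one _, 0, by
        intro s; simp [Df_one]⟩
      mul_mem' := by
        rintro x y ⟨h1, m, hm⟩ ⟨h2, n, hn⟩
        exact ⟨by rw [map_mul, h1, h2, mul_one], m + n, Bd_mul_of_null h1 hm hn⟩
      inv_mem' := by
        rintro x ⟨h1, m, hm⟩
        exact ⟨by rw [map_inv, h1, inv_one], m, Bd_inv_of_null h1 hm⟩ }
  have hnorm : S.Normal := by
    constructor
    rintro x ⟨h1, m, hm⟩ h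
    exact ⟨by rw [map_mul, map_mul, h1, mul_one, map_inv, mul_inv_cancel], m,
      Bd_conj_of_null h1 hm h⟩
  have hle : Subgroup.normalClosure ({r0} : Set F) ≤ S := by
    apply Subgroup.normalClosure_le_normal
    intro r hr
    rw [Set.mem_singleton_iff] at hr
    subst hr
    exact ⟨PresentedGroup.one_of_mem (Set.mem_singleton r0), 1, Bd_r0⟩
  have hmem : g ∈ Subgroup.normalClosure ({r0} : Set F) := by
    exact PresentedGroup.mk_eq_one_iff.1 hg
  exact (hle hmem).2

/-- uniform bound for short words -/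
lemma exists_unif (N : ℕ) : ∃ M : ℕ, ∀ w : List (Fin 2 × Bool), w.length ≤ N →
    mkP (FreeGroup.mk w) = 1 → Bd (Df (FreeGroup.mk w)) M := by
  classical
  have hfin : {l : List (Fin 2 × Bool) | l.length ≤ N}.Finite := List.finite_length_le _ N
  have hex : ∀ w : List (Fin 2 × Bool), ∃ n : ℕ, mkP (FreeGroup.mk w) = 1 →
      Bd (Df (FreeGroup.mk w)) n := by
    intro w
    by_cases h : mkP (FreeGroup.mk w) = 1
    · obtain ⟨n, hn⟩ := exists_Bd _ h
      exact ⟨n, fun _ => hn⟩
    · exact ⟨0, fun h' => absurd h' h⟩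
  choose f hf using hex
  refine ⟨∑ w ∈ hfin.toFinset, f w, fun w hw h1 => ?_⟩
  apply (hf w h1).mono
  apply Finset.single_le_sum (f := f) (fun _ _ => Nat.zero_le _)
  simpa using hw

end Pool.Agent.BSAuto
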