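import Pool.Agent.BSAuto.Auto

/-! BS(3,5) carries no automatic structure over any finite alphabet. -/

set_option autoImplicit false

namespace Pool.Agent.BSAuto

section Gen

variable {α : Type} (pi : α → P)

/-- evaluation of a word over an alphabet mapped to the group -/
def evA (w : List α) : P := (w.map pi).prod

lemma evA_append (u v : List α) : evA pi (u ++ v) = evA pi u * evA pi v := by
  simp [evA]

lemma evA_nil : evA pi [] = 1 := by simp [evA]

lemma evA_singleton (x : α) : evA pi [x] = pi x := by simp [evA]

variable {pi} {rho : α → Wo} (hrho : ∀ x, ev (rho x) = pi x) {C0 : ℕ}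
  (hC0 : ∀ x, (rho x).length ≤ C0)

include hrho in
lemma ev_rho (w : List α) : ev (w.flatMap rho) = evA pi w := by
  induction w with
  | nil => simp [ev_nil, evA_nil]
  | cons x w ih =>
    rw [List.flatMap_cons, ev_append, ih, hrho]
    simp [evA]

include hC0 in
lemma length_rho (w : List α) : (w.flatMap rho).length ≤ C0 * w.length := by
  induction w with
  | nil => simp
  | cons x w ih =>
    rw [List.flatMap_cons, List.length_append, List.length_cons]
    have := hC0 x
    nlinarith

include hrho hC0 in
lemma fellow' {k N0 D0 : ℕ}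
    (hD : ∀ w : Wo, w.length ≤ 2 * C0 + 2 * k + N0 → mkP (FreeGroup.mk w) = 1 →
      Bd (Df (FreeGroup.mk w)) D0)
    (u v : List α) (z : Wo) (hz : z.length ≤ N0) (huv : evA pi u * ev z = evA pi v)
    (hft : ∀ t : ℕ, ∃ w : Wo, w.length ≤ k ∧ evA pi (u.take t) * ev w = evA pi (v.take t)) :
    Bd (Df (FreeGroup.mk (u.flatMap rho) * FreeGroup.mk z * (FreeGroup.mk (v.flatMap rho))⁻¹))
      ((max u.length v.length + 2) * D0) := by
  choose w hw1 hw2 using hft
  set p : ℕ → F := fun t => FreeGroup.mk ((u.take t).flatMap rho) * FreeGroup.mk (w t) *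
    (FreeGroup.mk ((v.take t).flatMap rho))⁻¹ with hp
  have hpnull : ∀ t, mkP (p t) = 1 := by
    intro t
    have h0 := hw2 t
    rw [← ev_rho hrho, ← ev_rho hrho] at h0
    simp only [ev] at h0
    simp only [hp, map_mul, map_inv, h0, mul_inv_cancel]
  have hpB : ∀ t, Bd (Df (p t)) ((t + 1) * D0) := by
    intro t
    induction t with
    | zero =>
      have h0 : p 0 = FreeGroup.mk (w 0) := by
        simp only [hp, List.take_zero, List.flatMap_nil, ← FreeGroup.one_eq_mk, one_mul, inv_one,
          mul_one]
      rw [h0, zero_add, one_mul]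
      apply hD _ (by have := hw1 0; omega)
      rw [← h0]; exact hpnull 0
    | succ t ih =>
      set a : List α := (u[t]?).toList with ha
      set b : List α := (v[t]?).toList with hb
      have hal : (a.flatMap rho).length ≤ C0 := by
        rw [ha]; cases h : u[t]? with
        | none => simp
        | some x => simpa using hC0 x
      have hbl : (b.flatMap rho).length ≤ C0 := by
        rw [hb]; cases h : v[t]? with
        | none => simp
        | some x => simpa using hC0 x
      have hu : u.take (t + 1) = u.take t ++ a := List.take_add_one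
      have hv : v.take (t + 1) = v.take t ++ b := List.take_add_one
      set c : Wo := a.flatMap rho ++ w (t + 1) ++ FreeGroup.invRev (b.flatMap rho) ++
        FreeGroup.invRev (w t) with hc
      have hcl : c.length ≤ 2 * C0 + 2 * k + N0 := by
        simp only [hc, List.length_append, FreeGroup.invRev_length]
        have := hw1 t
        have := hw1 (t + 1)
        omega
      have hmkc : FreeGroup.mk c = FreeGroup.mk (a.flatMap rho) * FreeGroup.mk (w (t + 1)) *
          (FreeGroup.mk (b.flatMap rho))⁻¹ * (FreeGroup.mk (w t))⁻¹ := by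
        simp only [hc, mk_append, FreeGroup.inv_mk]
      have hstep : p (t + 1) = FreeGroup.mk ((u.take t).flatMap rho) * FreeGroup.mk c *
          (FreeGroup.mk ((u.take t).flatMap rho))⁻¹ * p t := by
        simp only [hp, hu, hv, List.flatMap_append, mk_append, hmkc]
        group
      have hcnull : mkP (FreeGroup.mk c) = 1 := by
        have h1 := hpnull (t + 1)
        rw [hstep, map_mul, map_mul, map_mul, hpnull t, mul_one, map_inv] at h1
        have h2 : mkP (FreeGroup.mk ((u.take t).flatMap rho)) * mkP (FreeGroup.mk c) =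
            mkP (FreeGroup.mk ((u.take t).flatMap rho)) := mul_inv_eq_one.1 h1
        simpa using h2
      have hcB := hD c hcl hcnull
      have h3 := Bd_conj_of_null hcnull hcB (FreeGroup.mk ((u.take t).flatMap rho))
      have h4 : mkP (FreeGroup.mk ((u.take t).flatMap rho) * FreeGroup.mk c *
          (FreeGroup.mk ((u.take t).flatMap rho))⁻¹) = 1 := by
        rw [map_mul, map_mul, hcnull, mul_one, map_inv, mul_inv_cancel]
      rw [hstep]
      have h5 := Bd_mul_of_null h4 h3 ih
      have : D0 + (t + 1) * D0 = (t + 1 + 1) * D0 := by ring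
      rwa [this] at h5
  set T := max u.length v.length with hT
  have huT : u.take T = u := List.take_of_length_le (le_max_left _ _)
  have hvT : v.take T = v := List.take_of_length_le (le_max_right _ _)
  set c : Wo := z ++ FreeGroup.invRev (w T) with hc
  have hcl : c.length ≤ 2 * C0 + 2 * k + N0 := by
    simp only [hc, List.length_append, FreeGroup.invRev_length]
    have := hw1 T
    omega
  have hmkc : FreeGroup.mk c = FreeGroup.mk z * (FreeGroup.mk (w T))⁻¹ := by
    simp only [hc, mk_append, FreeGroup.inv_mk]
  have hcnull : mkP (FreeGroup.mk c) = 1 := by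
    have h1 := hw2 T
    rw [huT, hvT, ← huv] at h1
    have h2 : ev (w T) = ev z := mul_left_cancel h1
    simp only [ev] at h2
    rw [hmkc, map_mul, map_inv, h2, mul_inv_cancel]
  have hstep : FreeGroup.mk (u.flatMap rho) * FreeGroup.mk z * (FreeGroup.mk (v.flatMap rho))⁻¹ =
      FreeGroup.mk (u.flatMap rho) * FreeGroup.mk c * (FreeGroup.mk (u.flatMap rho))⁻¹ * p T := by
    simp only [hp, huT, hvT, hmkc]
    group
  have h3 := Bd_conj_of_null hcnull (hD c hcl hcnull) (FreeGroup.mk (u.flatMap rho))
  have h4 : mkP (FreeGroup.mk (u.flatMap rho) * FreeGroup.mk c *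
      (FreeGroup.mk (u.flatMap rho))⁻¹) = 1 := by
    rw [map_mul, map_mul, hcnull, mul_one, map_inv, mul_inv_cancel]
  rw [hstep]
  have h5 := Bd_mul_of_null h4 h3 (hpB T)
  have : D0 + (T + 1) * D0 = (T + 2) * D0 := by ring
  rwa [this] at h5

/-- short representatives -/
lemma pump' {σ : Type*} [Fintype σ] (M : DFA α σ)
    (hsurj : ∀ g : P, ∃ w : List α, w ∈ M.accepts ∧ evA pi w = g) (k : ℕ)
    (hft : ∀ u v : List α, u ∈ M.accepts → v ∈ M.accepts →
      (∃ x : α, evA pi u * pi x = evA pi v) →
      ∀ t : ℕ, ∃ w : Wo, w.length ≤ k ∧ evA pi (u.take t) * ev w = evA pi (v.take t)) :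
    ∃ C : ℕ, ∀ u ∈ M.accepts, ∀ x : α, ∃ v ∈ M.accepts,
      evA pi u * pi x = evA pi v ∧ v.length ≤ u.length + C := by
  classical
  have hfin : {l : List (Fin 2 × Bool) | l.length ≤ k}.Finite := List.finite_length_le _ k
  have : Fintype {l : List (Fin 2 × Bool) | l.length ≤ k} := hfin.fintype
  set C := Fintype.card (σ × {l : List (Fin 2 × Bool) | l.length ≤ k}) with hC
  refine ⟨C, fun u hu x => ?_⟩
  have hex : ∃ n : ℕ, ∃ v ∈ M.accepts, evA pi u * pi x = evA pi v ∧ v.length = n := by
    obtain ⟨v, hv, hv'⟩ := hsurj (evA pi u * pi x)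
    exact ⟨v.length, v, hv, hv'.symm, rfl⟩
  obtain ⟨v, hv, hv1, hv2⟩ := Nat.find_spec hex
  refine ⟨v, hv, hv1, ?_⟩
  by_contra hlen
  push Not at hlen
  have hft' := hft u v hu hv ⟨x, hv1⟩
  choose w hw1 hw2 using hft'
  let f : Fin (C + 1) → σ × {l : List (Fin 2 × Bool) | l.length ≤ k} :=
    fun i => (M.eval (v.take (u.length + i)), ⟨w (u.length + i), hw1 _⟩)
  obtain ⟨i, j, hij, hf⟩ := Fintype.exists_ne_map_eq_of_card_lt f (by
    rw [Fintype.card_fin]; omega)
  have main : ∀ i j : Fin (C + 1), i < j → f i = f j → False := by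
    intro i j hlt hf
    have h1 : M.eval (v.take (u.length + i)) = M.eval (v.take (u.length + j)) :=
      congrArg Prod.fst hf
    have h2 : w (u.length + i) = w (u.length + j) := by
      have := congrArg (fun z => (z.2 : List (Fin 2 × Bool))) hf
      exact this
    have hti : u.take (u.length + i) = u := List.take_of_length_le (by omega)
    have htj : u.take (u.length + j) = u := List.take_of_length_le (by omega)
    have h3 : evA pi (v.take (u.length + i)) = evA pi (v.take (u.length + j)) := by
      rw [← hw2, ← hw2, hti, htj, h2]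
    set v' : List α := v.take (u.length + i) ++ v.drop (u.length + j) with hv'
    have hacc : v' ∈ M.accepts := by
      rw [DFA.mem_accepts] at hv ⊢
      have e1 : M.eval v = M.evalFrom (M.eval (v.take (u.length + j))) (v.drop (u.length + j)) := by
        conv_lhs => rw [← List.take_append_drop (u.length + j) v]
        rw [DFA.eval, DFA.evalFrom_of_append, ← DFA.eval]
      rw [hv', DFA.eval, DFA.evalFrom_of_append, ← DFA.eval, h1, ← e1]
      exact hv
    have hev : evA pi v' = evA pi v := by
      rw [hv', evA_append, h3, ← evA_append, List.take_append_drop]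
    have hl : v'.length < v.length := by
      rw [hv', List.length_append, List.length_take, List.length_drop]
      have hj := j.2
      have hlt' : (i : ℕ) < j := hlt
      omega
    have := Nat.find_min' hex ⟨v', hacc, by rw [hev]; exact hv1, rfl⟩
    omega
  rcases lt_or_gt_of_ne hij with h | h
  · exact main i j h hf
  · exact main j i h hf.symm

include hrho hC0 in
theorem quad_of_auto' {σ : Type*} [Fintype σ] (M : DFA α σ)
    (hsurj : ∀ g : P, ∃ w : List α, w ∈ M.accepts ∧ evA pi w = g) (k : ℕ)
    (hft : ∀ u v : List α, u ∈ M.accepts → v ∈ M.accepts →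
      (evA pi u = evA pi v ∨ ∃ x : α, evA pi u * pi x = evA pi v) →
      ∀ t : ℕ, ∃ w : Wo, w.length ≤ k ∧ evA pi (u.take t) * ev w = evA pi (v.take t)) :
    ∃ K : ℕ, ∀ w : List α, evA pi w = 1 →
      Bd (Df (FreeGroup.mk (w.flatMap rho))) (K * (w.length + 1) ^ 2) := by
  obtain ⟨D0, hD⟩ := exists_unif (2 * C0 + 2 * k + C0)
  obtain ⟨C, hC⟩ := pump' (pi := pi) M hsurj k (fun u v hu hv hx => hft u v hu hv (Or.inr hx))
  obtain ⟨u0, hu0, hu0e⟩ := hsurj 1
  refine ⟨(u0.length + C + 2) * D0, fun w hw => ?_⟩
  set Q := (u0.length + w.length * C + 2) * D0 with hQ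
  have chain : ∀ i ≤ w.length, ∃ v ∈ M.accepts, evA pi v = evA pi (w.take i) ∧
      v.length ≤ u0.length + i * C ∧
      Bd (Df (FreeGroup.mk (u0.flatMap rho) * FreeGroup.mk ((w.take i).flatMap rho) *
        (FreeGroup.mk (v.flatMap rho))⁻¹)) (i * Q) := by
    intro i
    induction i with
    | zero =>
      intro _
      refine ⟨u0, hu0, by rw [hu0e, List.take_zero, evA_nil], by omega, ?_⟩
      have : FreeGroup.mk (u0.flatMap rho) * FreeGroup.mk ((w.take 0).flatMap rho) *
          (FreeGroup.mk (u0.flatMap rho))⁻¹ = (1 : F) := by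
        rw [List.take_zero, List.flatMap_nil, ← FreeGroup.one_eq_mk]; group
      rw [this]
      intro s
      simp [Df_one]
    | succ i ih =>
      intro hi
      obtain ⟨v, hv, hve, hvl, hvB⟩ := ih (by omega)
      have hiw : i < w.length := by omega
      obtain ⟨v', hv', hve', hvl'⟩ := hC v hv (w[i])
      have htake : w.take (i + 1) = w.take i ++ [w[i]] := List.take_succ_eq_append_getElem hiw
      refine ⟨v', hv', ?_, ?_, ?_⟩
      · rw [← hve', hve, htake, evA_append, evA_singleton]
      · have : (i + 1) * C = i * C + C := by ring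
        omega
      · have hF := fellow' hrho hC0 hD v v' (rho (w[i])) (hC0 _) (by rw [hrho]; exact hve')
          (hft v v' hv hv' (Or.inr ⟨w[i], hve'⟩))
        have hFle : (max v.length v'.length + 2) * D0 ≤ Q := by
          rw [hQ]
          apply Nat.mul_le_mul_right
          have h1 : (i + 1) * C ≤ w.length * C := Nat.mul_le_mul_right _ hi
          have h2 : (i + 1) * C = i * C + C := by ring
          have : max v.length v'.length ≤ u0.length + w.length * C := by
            apply max_le <;> omega
          omega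
        have hF' := hF.mono hFle
        have hnull : mkP (FreeGroup.mk (u0.flatMap rho) * FreeGroup.mk ((w.take i).flatMap rho) *
            (FreeGroup.mk (v.flatMap rho))⁻¹) = 1 := by
          rw [← ev_rho hrho, ← ev_rho hrho] at hve
          rw [← ev_rho hrho] at hu0e
          simp only [ev] at hve hu0e
          rw [map_mul, map_mul, map_inv, hve, hu0e, one_mul, mul_inv_cancel]
        have heq : FreeGroup.mk (u0.flatMap rho) * FreeGroup.mk ((w.take (i + 1)).flatMap rho) *
            (FreeGroup.mk (v'.flatMap rho))⁻¹ =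
            (FreeGroup.mk (u0.flatMap rho) * FreeGroup.mk ((w.take i).flatMap rho) *
              (FreeGroup.mk (v.flatMap rho))⁻¹) *
            (FreeGroup.mk (v.flatMap rho) * FreeGroup.mk (rho (w[i])) *
              (FreeGroup.mk (v'.flatMap rho))⁻¹) := by
          rw [htake, List.flatMap_append, mk_append]
          have : [w[i]].flatMap rho = rho (w[i]) := by simp
          rw [this]; group
        rw [heq]
        have := Bd_mul_of_null hnull hvB hF'
        have e : i * Q + Q = (i + 1) * Q := by ring
        rwa [e] at this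
  obtain ⟨v, hv, hve, hvl, hvB⟩ := chain w.length le_rfl
  rw [List.take_length] at hve hvB
  have hve1 : evA pi v = 1 := by rw [hve]; exact hw
  have hF := fellow' hrho hC0 hD u0 v [] (by simp) (by rw [hu0e, ev_nil, hve1, mul_one])
    (hft u0 v hu0 hv (Or.inl (by rw [hu0e, hve1])))
  have hFle : (max u0.length v.length + 2) * D0 ≤ Q := by
    rw [hQ]
    apply Nat.mul_le_mul_right
    have : max u0.length v.length ≤ u0.length + w.length * C := by
      apply max_le <;> omega
    omega
  have hF' := hF.mono hFle
  have hn0 : mkP (FreeGroup.mk (u0.flatMap rho)) = 1 := by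
    have := ev_rho hrho u0
    rw [hu0e] at this; exact this
  have hn1 : mkP (FreeGroup.mk (v.flatMap rho)) = 1 := by
    have := ev_rho hrho v
    rw [hve1] at this; exact this
  have hn2 : mkP (FreeGroup.mk (w.flatMap rho)) = 1 := by
    have := ev_rho hrho w
    rw [hw] at this; exact this
  have hA : mkP (FreeGroup.mk (u0.flatMap rho) * FreeGroup.mk (w.flatMap rho) *
      (FreeGroup.mk (v.flatMap rho))⁻¹) = 1 := by
    rw [map_mul, map_mul, map_inv, hn0, hn1, hn2]; simp
  have hB : mkP (FreeGroup.mk (u0.flatMap rho) * FreeGroup.mk [] *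
      (FreeGroup.mk (v.flatMap rho))⁻¹) = 1 := by
    rw [map_mul, map_mul, map_inv, hn0, hn1, ← FreeGroup.one_eq_mk, map_one]; simp
  have hprod := Bd_mul_of_null hA hvB (Bd_inv_of_null hB hF')
  have hprodnull : mkP ((FreeGroup.mk (u0.flatMap rho) * FreeGroup.mk (w.flatMap rho) *
      (FreeGroup.mk (v.flatMap rho))⁻¹) *
      (FreeGroup.mk (u0.flatMap rho) * FreeGroup.mk [] *
        (FreeGroup.mk (v.flatMap rho))⁻¹)⁻¹) = 1 := by
    rw [map_mul, hA, map_inv, hB]; simp
  have hfinal := Bd_conj_of_null hprodnull hprod (FreeGroup.mk (u0.flatMap rho))⁻¹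
  have heq : (FreeGroup.mk (u0.flatMap rho))⁻¹ * ((FreeGroup.mk (u0.flatMap rho) *
      FreeGroup.mk (w.flatMap rho) * (FreeGroup.mk (v.flatMap rho))⁻¹) *
      (FreeGroup.mk (u0.flatMap rho) * FreeGroup.mk [] *
        (FreeGroup.mk (v.flatMap rho))⁻¹)⁻¹) * ((FreeGroup.mk (u0.flatMap rho))⁻¹)⁻¹ =
      FreeGroup.mk (w.flatMap rho) := by
    rw [← FreeGroup.one_eq_mk]; group
  rw [heq] at hfinal
  apply hfinal.mono
  have h1 : w.length * Q + Q = (w.length + 1) * Q := by ring
  rw [h1, hQ]
  have h2 : u0.length + w.length * C + 2 ≤ (u0.length + C + 2) * (w.length + 1) := by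
    have : (u0.length + C + 2) * (w.length + 1) =
      u0.length * w.length + w.length * C + 2 * w.length + u0.length + C + 2 := by ring
    have h3 : 0 ≤ u0.length * w.length := Nat.zero_le _
    omega
  calc (w.length + 1) * ((u0.length + w.length * C + 2) * D0)
      ≤ (w.length + 1) * (((u0.length + C + 2) * (w.length + 1)) * D0) := by gcongr
    _ = (u0.length + C + 2) * D0 * (w.length + 1) ^ 2 := by ring

end Gen

/-- BS(3,5) carries no automatic structure (fellow-traveller form) over any finite alphabet. -/
theorem not_automatic' {α : Type} [Finite α] (pi : α → P) {σ : Type*} [Fintype σ] (M : DFA α σ)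
    (hsurj : ∀ g : P, ∃ w : List α, w ∈ M.accepts ∧ evA pi w = g) (k : ℕ)
    (hft : ∀ u v : List α, u ∈ M.accepts → v ∈ M.accepts →
      (evA pi u = evA pi v ∨ ∃ x : α, evA pi u * pi x = evA pi v) →
      ∀ t : ℕ, ∃ w : Wo, w.length ≤ k ∧ evA pi (u.take t) * ev w = evA pi (v.take t)) :
    False := by
  classical
  have := Fintype.ofFinite α
  have hsur0 : ∀ g : P, ∃ w : Wo, ev w = g := by
    intro g
    obtain ⟨f, hf⟩ := PresentedGroup.mk_surjective ({r0} : Set F) g
    refine ⟨f.toWord, ?_⟩
    rw [ev, FreeGroup.mk_toWord]; exact hf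
  choose rho hrho using fun x => hsur0 (pi x)
  set C0 := ∑ x, (rho x).length with hC0d
  have hC0 : ∀ x, (rho x).length ≤ C0 := fun x =>
    Finset.single_le_sum (f := fun x => (rho x).length) (fun _ _ => Nat.zero_le _)
      (Finset.mem_univ x)
  obtain ⟨K, hK⟩ := quad_of_auto' hrho hC0 M hsurj k hft
  -- the standard letters as words over the alphabet
  choose tau' _ htau using fun x : Fin 2 × Bool => hsurj (ev [x])
  set C1 := ∑ x, (tau' x).length with hC1d
  have hC1 : ∀ x, (tau' x).length ≤ C1 := fun x =>
    Finset.single_le_sum (f := fun x => (tau' x).length) (fun _ _ => Nat.zero_le _)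
      (Finset.mem_univ x)
  obtain ⟨D1, hD1⟩ := exists_unif (1 + C0 * C1)
  have hlen : ∀ w : Wo, (w.flatMap tau').length ≤ C1 * w.length := by
    intro w
    induction w with
    | nil => simp
    | cons x w ih =>
      rw [List.flatMap_cons, List.length_append, List.length_cons]
      have := hC1 x
      nlinarith
  have hev : ∀ w : Wo, evA pi (w.flatMap tau') = ev w := by
    intro w
    induction w with
    | nil => simp [ev_nil, evA_nil]
    | cons x w ih =>
      rw [List.flatMap_cons, evA_append, ih, htau, ← ev_append]; rfl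
  have hcmp : ∀ w : Wo, Bd (Df (FreeGroup.mk w *
      (FreeGroup.mk ((w.flatMap tau').flatMap rho))⁻¹)) (w.length * D1) ∧
      mkP (FreeGroup.mk w * (FreeGroup.mk ((w.flatMap tau').flatMap rho))⁻¹) = 1 := by
    intro w
    have hnull : ∀ w : Wo,
        mkP (FreeGroup.mk w * (FreeGroup.mk ((w.flatMap tau').flatMap rho))⁻¹) = 1 := by
      intro w
      have h1 := ev_rho hrho (w.flatMap tau')
      rw [hev] at h1
      simp only [ev] at h1
      rw [map_mul, map_inv, h1, mul_inv_cancel]
    refine ⟨?_, hnull w⟩
    induction w with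
    | nil =>
      have : (FreeGroup.mk ([] : Wo) *
        (FreeGroup.mk ((([] : Wo).flatMap tau').flatMap rho))⁻¹) = 1 := by
        simp [← FreeGroup.one_eq_mk]
      rw [this]
      intro s
      simp [Df_one]
    | cons x w ih =>
      have hx : Bd (Df (FreeGroup.mk [x] * (FreeGroup.mk ((tau' x).flatMap rho))⁻¹)) D1 := by
        have h1 : FreeGroup.mk [x] * (FreeGroup.mk ((tau' x).flatMap rho))⁻¹ =
            FreeGroup.mk ([x] ++ FreeGroup.invRev ((tau' x).flatMap rho)) := by
          rw [mk_append, FreeGroup.inv_mk]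
        have h2 := hnull [x]
        have h3 : [x].flatMap tau' = tau' x := by simp
        rw [h3] at h2
        rw [h1] at h2 ⊢
        apply hD1 _ _ h2
        rw [List.length_append, FreeGroup.invRev_length, List.length_singleton]
        have h4 := length_rho (rho := rho) hC0 (tau' x)
        have h5 := Nat.mul_le_mul_left C0 (hC1 x)
        omega
      have hxn : mkP (FreeGroup.mk [x] * (FreeGroup.mk ((tau' x).flatMap rho))⁻¹) = 1 := by
        have h2 := hnull [x]
        have h3 : [x].flatMap tau' = tau' x := by simp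
        rwa [h3] at h2
      have heq : FreeGroup.mk (x :: w) *
          (FreeGroup.mk (((x :: w).flatMap tau').flatMap rho))⁻¹ =
          FreeGroup.mk [x] * (FreeGroup.mk w *
            (FreeGroup.mk ((w.flatMap tau').flatMap rho))⁻¹) * (FreeGroup.mk [x])⁻¹ *
          (FreeGroup.mk [x] * (FreeGroup.mk ((tau' x).flatMap rho))⁻¹) := by
        rw [show x :: w = [x] ++ w from rfl, mk_append, List.flatMap_append,
          List.flatMap_append, mk_append, show [x].flatMap tau' = tau' x by simp]
        group
      rw [heq]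
      have h5 := Bd_conj_of_null (hnull w) ih (FreeGroup.mk [x])
      have h6 : mkP (FreeGroup.mk [x] * (FreeGroup.mk w *
            (FreeGroup.mk ((w.flatMap tau').flatMap rho))⁻¹) * (FreeGroup.mk [x])⁻¹) = 1 := by
        rw [map_mul, map_mul, hnull w, map_inv]; simp
      have h7 := Bd_mul_of_null h6 h5 hx
      have : w.length * D1 + D1 = (x :: w).length * D1 := by
        rw [List.length_cons]; ring
      rwa [this] at h7
  refine no_quadratic (D1 + K * (C1 + 1) ^ 2) fun w hw => ?_
  obtain ⟨h1, h2⟩ := hcmp w
  have h3 := hK (w.flatMap tau') (by rw [hev]; exact hw)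
  have h4 := Bd_mul_of_null h2 h1 h3
  have h5 : FreeGroup.mk w * (FreeGroup.mk ((w.flatMap tau').flatMap rho))⁻¹ *
      FreeGroup.mk ((w.flatMap tau').flatMap rho) = FreeGroup.mk w := by group
  rw [h5] at h4
  apply h4.mono
  have h6 : (w.flatMap tau').length + 1 ≤ (C1 + 1) * (w.length + 1) := by
    have := hlen w
    nlinarith
  calc w.length * D1 + K * ((w.flatMap tau').length + 1) ^ 2
      ≤ (w.length + 1) ^ 2 * D1 + K * ((C1 + 1) * (w.length + 1)) ^ 2 := by
        gcongr
        nlinarith
    _ = (D1 + K * (C1 + 1) ^ 2) * (w.length + 1) ^ 2 := by ring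

end Pool.Agent.BSAuto
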