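import Mathlib

/-! Length function on an HNN extension: number of stable letters in the normal form.
It is the (right invariant) distance from the base vertex in the Bass-Serre tree. -/

set_option autoImplicit false

namespace Pool.Agent.BSAuto

/-- length of the longest common initial segment of two lists -/
noncomputable def cp {α : Type*} : List α → List α → ℕ
  | [], _ => 0
  | _ :: _, [] => 0
  | a :: l, b :: m => by classical exact if a = b then cp l m + 1 else 0

section cp
variable {α : Type*}

@[simp] lemma cp_nil_left (l : List α) : cp [] l = 0 := by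
  cases l <;> simp [cp]

@[simp] lemma cp_nil_right (l : List α) : cp l [] = 0 := by
  cases l <;> simp [cp]

lemma cp_cons_eq (a : α) (l m : List α) : cp (a :: l) (a :: m) = cp l m + 1 := by
  simp [cp]

lemma cp_cons_ne {a b : α} (h : a ≠ b) (l m : List α) : cp (a :: l) (b :: m) = 0 := by
  simp [cp, h]

lemma cp_comm (l m : List α) : cp l m = cp m l := by
  induction l generalizing m with
  | nil => simp
  | cons a l ih =>
    cases m with
    | nil => simp
    | cons b m =>
      by_cases h : a = b
      · subst h; simp [cp_cons_eq, ih]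
      · rw [cp_cons_ne h, cp_cons_ne (Ne.symm h)]

lemma cp_ultra (l m n : List α) : min (cp l n) (cp n m) ≤ cp l m := by
  induction l generalizing m n with
  | nil => simp
  | cons a l ih =>
    cases m with
    | nil => simp
    | cons b m =>
      cases n with
      | nil => simp
      | cons c n =>
        by_cases h : a = c
        · subst h
          by_cases h' : a = b
          · subst h'
            simp only [cp_cons_eq]
            have := ih m n
            omega
          · simp [cp_cons_ne h']
        · simp [cp_cons_ne h]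

lemma cp_append_singleton_ge (l m : List α) (x : α) : cp l m ≤ cp l (m ++ [x]) := by
  induction l generalizing m with
  | nil => simp
  | cons a l ih =>
    cases m with
    | nil => simp
    | cons b m =>
      by_cases h : a = b
      · subst h
        simp only [List.cons_append, cp_cons_eq]
        have := ih m; omega
      · simp [cp_cons_ne h]

lemma cp_append_singleton_le (l m : List α) (x : α) : cp l (m ++ [x]) ≤ cp l m + 1 := by
  induction l generalizing m with
  | nil => simp
  | cons a l ih =>
    cases m with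
    | nil =>
      by_cases h : a = x
      · subst h; simp [cp_cons_eq]
      · simp [cp_cons_ne h]
    | cons b m =>
      by_cases h : a = b
      · subst h
        simp only [List.cons_append, cp_cons_eq]
        have := ih m; omega
      · simp [cp_cons_ne h]

lemma exists_cp_split (l m : List α) : ∃ s l' m' : List α, l = s ++ l' ∧ m = s ++ m' ∧
    s.length = cp l m := by
  induction l generalizing m with
  | nil => exact ⟨[], [], m, by simp⟩
  | cons a l ih =>
    cases m with
    | nil => exact ⟨[], a :: l, [], by simp⟩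
    | cons b m =>
      by_cases h : a = b
      · subst h
        obtain ⟨s, l', m', h1, h2, h3⟩ := ih m
        exact ⟨a :: s, l', m', by simp [h1], by simp [h2], by simp [cp_cons_eq, h3]⟩
      · exact ⟨[], a :: l, b :: m, by simp, by simp, by simp [cp_cons_ne h]⟩

end cp

open HNNExtension HNNExtension.NormalWord

variable {G : Type*} [Group G] {A B : Subgroup G}

/-- a chosen transversal pair -/
noncomputable def trv (A B : Subgroup G) : TransversalPair G A B :=
  Classical.choice (TransversalPair.nonempty G A B)

variable (φ : A ≃* B)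

/-- list of syllables of the normal form -/
noncomputable def PL (g : HNNExtension G A B φ) : List (ℤˣ × G) :=
  (g • (empty : NormalWord (trv A B))).toList

/-- number of stable letters in the normal form -/
noncomputable def len (g : HNNExtension G A B φ) : ℕ := (PL φ g).length

/-- product of a list of syllables -/
def prodL (L : List (ℤˣ × G)) : HNNExtension G A B φ :=
  (L.map (fun x => (t ^ (x.1 : ℤ) * of x.2 : HNNExtension G A B φ))).prod

@[simp] lemma prodL_nil : prodL φ ([] : List (ℤˣ × G)) = 1 := by simp [prodL]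

@[simp] lemma prodL_cons (a : ℤˣ × G) (L : List (ℤˣ × G)) :
    prodL φ (a :: L) = t ^ (a.1 : ℤ) * of a.2 * prodL φ L := by simp [prodL]

lemma prodL_append (L M : List (ℤˣ × G)) : prodL φ (L ++ M) = prodL φ L * prodL φ M := by
  simp [prodL]

lemma PL_one : PL φ 1 = [] := by simp [PL]

@[simp] lemma len_one : len φ 1 = 0 := by simp [len, PL_one]

lemma PL_of_mul (x : G) (g : HNNExtension G A B φ) : PL φ (of x * g) = PL φ g := by
  simp only [PL, mul_smul, of_smul_eq_smul, group_smul_toList]

@[simp] lemma len_of_mul (x : G) (g : HNNExtension G A B φ) : len φ (of x * g) = len φ g := by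
  simp [len, PL_of_mul]

lemma unitsSMul_toList (u : ℤˣ) (w : NormalWord (trv A B)) :
    (∃ x, (unitsSMul φ u w).toList = x :: w.toList) ∨
    (∃ x, w.toList = x :: (unitsSMul φ u w).toList) := by
  unfold unitsSMul
  split_ifs with h
  · right
    cases w using consRecOn with
    | ofGroup => simp [Cancels] at h
    | cons g u' w h1 h2 _ =>
      refine ⟨(u', w.head), ?_⟩
      simp [unitsSMulWithCancel]
  · left
    refine ⟨_, by simp only [cons_toList]; rfl⟩

lemma PL_t_mul (u : ℤˣ) (g : HNNExtension G A B φ) :
    (∃ x, PL φ (t ^ (u : ℤ) * g) = x :: PL φ g) ∨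
    (∃ x, PL φ g = x :: PL φ (t ^ (u : ℤ) * g)) := by
  simp only [PL, mul_smul, t_pow_smul_eq_unitsSMul]
  exact unitsSMul_toList φ u _

lemma eq_of_mul_prodL (g : HNNExtension G A B φ) : ∃ x : G, g = of x * prodL φ (PL φ g) := by
  refine ⟨(g • (empty : NormalWord (trv A B))).head, ?_⟩
  have h : (g • (empty : NormalWord (trv A B))).prod φ = g := by simp
  conv_lhs => rw [← h]
  rfl

lemma len_t_mul_le (u : ℤˣ) (g : HNNExtension G A B φ) :
    len φ (t ^ (u : ℤ) * g) ≤ len φ g + 1 := by
  rcases PL_t_mul φ u g with ⟨x, h⟩ | ⟨x, h⟩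
  · simp [len, h]
  · have : (PL φ g).length = (PL φ (t ^ (u : ℤ) * g)).length + 1 := by rw [h]; simp
    simp only [len]; omega

lemma len_prodL_mul_le (L : List (ℤˣ × G)) (h : HNNExtension G A B φ) :
    len φ (prodL φ L * h) ≤ L.length + len φ h := by
  induction L with
  | nil => simp
  | cons a L ih =>
    rw [prodL_cons, mul_assoc, mul_assoc]
    have h1 := len_t_mul_le φ a.1 (of a.2 * (prodL φ L * h))
    rw [len_of_mul] at h1
    simp only [List.length_cons]
    omega

lemma len_prodL_inv_mul_le (L : List (ℤˣ × G)) (h : HNNExtension G A B φ) :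
    len φ ((prodL φ L)⁻¹ * h) ≤ L.length + len φ h := by
  induction L generalizing h with
  | nil => simp
  | cons a L ih =>
    rw [prodL_cons, mul_inv_rev, mul_inv_rev, mul_assoc, mul_assoc]
    have h1 := ih ((of a.2)⁻¹ * ((t ^ (a.1 : ℤ))⁻¹ * h))
    have h2 : len φ ((of a.2)⁻¹ * ((t ^ (a.1 : ℤ))⁻¹ * h)) = len φ ((t ^ (a.1 : ℤ))⁻¹ * h) := by
      rw [← map_inv, len_of_mul]
    have h3 : len φ ((t ^ (a.1 : ℤ))⁻¹ * h) ≤ len φ h + 1 := by
      have := len_t_mul_le φ (-a.1) h
      simpa using this
    simp only [List.length_cons]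
    omega

lemma len_mul_le (g h : HNNExtension G A B φ) : len φ (g * h) ≤ len φ g + len φ h := by
  obtain ⟨x, hx⟩ := eq_of_mul_prodL φ g
  conv_lhs => rw [hx, mul_assoc, len_of_mul]
  exact len_prodL_mul_le φ _ _

lemma len_of (x : G) : len φ (of x) = 0 := by
  have := len_of_mul φ x 1
  simpa using this

lemma len_inv_le (g : HNNExtension G A B φ) : len φ g⁻¹ ≤ len φ g := by
  obtain ⟨x, hx⟩ := eq_of_mul_prodL φ g
  conv_lhs => rw [hx, mul_inv_rev]
  have h1 := len_prodL_inv_mul_le φ (PL φ g) ((of x)⁻¹ : HNNExtension G A B φ)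
  have h2 : len φ ((of x)⁻¹ : HNNExtension G A B φ) = 0 := by rw [← map_inv, len_of]
  simp only [len] at *
  omega

lemma len_inv (g : HNNExtension G A B φ) : len φ g⁻¹ = len φ g := by
  apply le_antisymm (len_inv_le φ g)
  have := len_inv_le φ g⁻¹
  simpa using this

lemma len_mul_of (x : G) (g : HNNExtension G A B φ) : len φ (g * of x) = len φ g := by
  rw [← len_inv, mul_inv_rev, ← map_inv, len_of_mul, len_inv]

lemma len_eq_zero_iff (g : HNNExtension G A B φ) : len φ g = 0 ↔ g ∈ (of.range : Subgroup (HNNExtension G A B φ)) := by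
  constructor
  · intro h
    obtain ⟨x, hx⟩ := eq_of_mul_prodL φ g
    have : PL φ g = [] := by simpa [len] using h
    rw [this] at hx
    exact ⟨x, by simpa using hx.symm⟩
  · rintro ⟨x, rfl⟩
    exact len_of φ x

/-- reduced words have length equal to `len` -/
lemma len_prodL_of_chain (L : List (ℤˣ × G))
    (hL : L.IsChain (fun a b => a.2 ∈ toSubgroup A B a.1 → a.1 = b.1)) :
    len φ (prodL φ L) = L.length := by
  let w₁ : ReducedWord G A B := ⟨1, L, hL⟩
  have h := (ReducedWord.map_fst_eq_and_of_prod_eq φ (w₁ := w₁)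
    (w₂ := (prodL φ L • (empty : NormalWord (trv A B))).toReducedWord) (by
      rw [prod_smul]; simp [w₁, ReducedWord.prod, prodL])).1
  have h2 := congrArg List.length h
  simp only [List.length_map] at h2
  simp only [len, PL]
  exact h2.symm

/-- reversed syllable list -/
noncomputable def RL (g : HNNExtension G A B φ) : List (ℤˣ × G) := (PL φ g).reverse

/-- tree distance between lists -/
noncomputable def DD {α : Type*} (l m : List α) : ℤ := l.length + m.length - 2 * cp l m

lemma RL_length (g : HNNExtension G A B φ) : (RL φ g).length = len φ g := by simp [RL, len]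

lemma DD_RL_of_mul (N : List (ℤˣ × G)) (x : G) (h : HNNExtension G A B φ) :
    DD N (RL φ (of x * h)) = DD N (RL φ h) := by
  simp [RL, PL_of_mul]

lemma DD_RL_t_mul (N : List (ℤˣ × G)) (u : ℤˣ) (h : HNNExtension G A B φ) :
    DD N (RL φ (t ^ (u : ℤ) * h)) ≤ DD N (RL φ h) + 1 := by
  rcases PL_t_mul φ u h with ⟨x, hx⟩ | ⟨x, hx⟩
  · simp only [RL, hx, List.reverse_cons]
    have := cp_append_singleton_ge N (PL φ h).reverse x
    simp only [DD, List.length_append, List.length_singleton]
    push_cast
    omega
  · have h1 : RL φ h = RL φ (t ^ (u : ℤ) * h) ++ [x] := by simp [RL, hx]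
    rw [h1]
    have := cp_append_singleton_le N (RL φ (t ^ (u : ℤ) * h)) x
    simp only [DD, List.length_append, List.length_singleton]
    push_cast
    omega

lemma DD_RL_prodL (N : List (ℤˣ × G)) (L : List (ℤˣ × G)) (h : HNNExtension G A B φ) :
    DD N (RL φ (prodL φ L * h)) ≤ DD N (RL φ h) + L.length := by
  induction L with
  | nil => simp
  | cons a L ih =>
    rw [prodL_cons, mul_assoc, mul_assoc]
    have h1 := DD_RL_t_mul φ N a.1 (of a.2 * (prodL φ L * h))
    rw [DD_RL_of_mul] at h1
    simp only [List.length_cons]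
    push_cast
    omega

lemma cp_self {α : Type*} (l : List α) : cp l l = l.length := by
  induction l with
  | nil => simp
  | cons a l ih => simp [cp_cons_eq, ih]

lemma DD_le_len (k h : HNNExtension G A B φ) : DD (RL φ h) (RL φ (k * h)) ≤ len φ k := by
  obtain ⟨x, hx⟩ := eq_of_mul_prodL φ k
  have h1 := DD_RL_prodL φ (RL φ h) (PL φ k) h
  have h2 : DD (RL φ h) (RL φ h) = 0 := by simp [DD, cp_self]; ring
  rw [h2] at h1
  conv_lhs => rw [hx, mul_assoc, DD_RL_of_mul]
  simpa [len] using h1

lemma len_le_DD (g h : HNNExtension G A B φ) : (len φ (g * h⁻¹) : ℤ) ≤ DD (RL φ g) (RL φ h) := by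
  obtain ⟨x, hx⟩ := eq_of_mul_prodL φ g
  obtain ⟨y, hy⟩ := eq_of_mul_prodL φ h
  obtain ⟨s, l', m', h1, h2, h3⟩ := exists_cp_split (RL φ g) (RL φ h)
  have hg : PL φ g = l'.reverse ++ s.reverse := by
    have : PL φ g = (RL φ g).reverse := by simp [RL]
    rw [this, h1]; simp
  have hh : PL φ h = m'.reverse ++ s.reverse := by
    have : PL φ h = (RL φ h).reverse := by simp [RL]
    rw [this, h2]; simp
  have key : g * h⁻¹ = of x * (prodL φ l'.reverse * ((prodL φ m'.reverse)⁻¹ * (of y⁻¹))) := by
    conv_lhs => rw [hx, hy, hg, hh]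
    simp only [prodL_append, map_inv]
    group
  have e1 : len φ (g * h⁻¹) ≤ l'.length + m'.length := by
    rw [key, len_of_mul]
    have a1 := len_prodL_mul_le φ l'.reverse ((prodL φ m'.reverse)⁻¹ * (of y⁻¹))
    have a2 := len_prodL_inv_mul_le φ m'.reverse (of y⁻¹ : HNNExtension G A B φ)
    rw [len_of] at a2
    simp only [List.length_reverse] at a1 a2
    omega
  have e2 : (RL φ g).length = s.length + l'.length := by rw [h1]; simp
  have e3 : (RL φ h).length = s.length + m'.length := by rw [h2]; simp
  simp only [DD]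
  rw [← h3, e2, e3]
  push_cast
  omega

lemma len_eq_DD (g h : HNNExtension G A B φ) : (len φ (g * h⁻¹) : ℤ) = DD (RL φ g) (RL φ h) := by
  apply le_antisymm (len_le_DD φ g h)
  have h1 := DD_le_len φ (h * g⁻¹) g
  have h2 : h * g⁻¹ * g = h := by group
  rw [h2] at h1
  have h3 : len φ (h * g⁻¹) = len φ (g * h⁻¹) := by
    rw [← len_inv]; congr 1; group
  rw [h3] at h1
  exact h1

/-- the four point inequality (with base point) -/
lemma four_point (g h k : HNNExtension G A B φ) :
    len φ (g * h⁻¹) + len φ k ≤
      max (len φ (g * k⁻¹) + len φ h) (len φ (h * k⁻¹) + len φ g) := by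
  have h1 := len_eq_DD φ g h
  have h2 := len_eq_DD φ g k
  have h3 := len_eq_DD φ h k
  have hu := cp_ultra (RL φ g) (RL φ h) (RL φ k)
  rw [cp_comm (RL φ k) (RL φ h)] at hu
  simp only [DD, RL_length] at h1 h2 h3
  rcases le_total (cp (RL φ g) (RL φ k)) (cp (RL φ h) (RL φ k)) with hle | hle
  · rw [min_eq_left hle] at hu
    apply le_max_of_le_left
    omega
  · rw [min_eq_right hle] at hu
    apply le_max_of_le_right
    omega

end Pool.Agent.BSAuto
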