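import Mathlib

/-! Abstract tree length functions and the structure of metabelian subgroups. -/

set_option autoImplicit false

namespace Pool.Agent.BSAuto

/-- A group with a tree-like length function (distance from a base vertex with stabiliser `A`). -/
structure TreeLen (G : Type*) [Group G] (A : Subgroup G) where
  /-- the length -/
  len : G → ℕ
  mul_le : ∀ g h, len (g * h) ≤ len g + len h
  inv_eq : ∀ g, len g⁻¹ = len g
  zero_iff : ∀ g, len g = 0 ↔ g ∈ A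
  four_point : ∀ g h k, len (g * h⁻¹) + len k ≤
      max (len (g * k⁻¹) + len h) (len (h * k⁻¹) + len g)
  conj_red : ∀ g, ∃ v c, g = v * c * v⁻¹ ∧ (c ∈ A ∨ (0 < len c ∧ ∀ n : ℕ, len (c ^ n) = n * len c))
  odd : ∀ g, g ^ 2 ∈ A → g ∈ A

namespace TreeLen

variable {G : Type*} [Group G] {A : Subgroup G} (T : TreeLen G A)

/-- elliptic elements -/
def Ell (A : Subgroup G) (g : G) : Prop := ∃ v, v⁻¹ * g * v ∈ A

/-- translation length -/
def TL (g : G) (m : ℕ) : Prop := ∃ C : ℕ, ∀ n : ℕ, n * m ≤ T.len (g ^ n) + C ∧ T.len (g ^ n) ≤ n * m + C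

lemma len_one : T.len 1 = 0 := (T.zero_iff 1).2 A.one_mem

lemma ell_one : Ell A (1 : G) := ⟨1, by simp⟩

lemma ell_inv {g : G} (h : Ell A g) : Ell A g⁻¹ := by
  obtain ⟨v, hv⟩ := h
  refine ⟨v, ?_⟩
  have := A.inv_mem hv
  convert this using 1
  group

lemma ell_pow {g : G} (h : Ell A g) (n : ℕ) : Ell A (g ^ n) := by
  obtain ⟨v, hv⟩ := h
  refine ⟨v, ?_⟩
  have := A.pow_mem hv n
  have e : (v⁻¹ * g * v) ^ n = v⁻¹ * g ^ n * v := by
    have := conj_pow (a := v⁻¹) (b := g) (i := n)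
    simpa using this
  rwa [e] at this

lemma ell_conj {g : G} (h : Ell A g) (x : G) : Ell A (x * g * x⁻¹) := by
  obtain ⟨v, hv⟩ := h
  refine ⟨x * v, ?_⟩
  convert hv using 1
  group

include T in
lemma ell_bdd {g : G} (h : Ell A g) : ∃ C : ℕ, ∀ n : ℕ, T.len (g ^ n) ≤ C := by
  obtain ⟨v, hv⟩ := h
  refine ⟨T.len v + T.len v, fun n => ?_⟩
  have e : g ^ n = v * (v⁻¹ * g * v) ^ n * v⁻¹ := by
    have := conj_pow (a := v⁻¹) (b := g) (i := n)
    simp only [inv_inv] at this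
    rw [this]; group
  rw [e]
  have h1 := T.mul_le (v * (v⁻¹ * g * v) ^ n) v⁻¹
  have h2 := T.mul_le v ((v⁻¹ * g * v) ^ n)
  have h3 : T.len ((v⁻¹ * g * v) ^ n) = 0 := (T.zero_iff _).2 (A.pow_mem hv n)
  rw [T.inv_eq] at h1
  omega

lemma ell_or_TL (g : G) : Ell A g ∨ ∃ m, 1 ≤ m ∧ T.TL g m := by
  obtain ⟨v, c, hg, h | ⟨h1, h2⟩⟩ := T.conj_red g
  · left
    refine ⟨v, ?_⟩
    rw [hg]; convert h using 1; group
  · right
    refine ⟨T.len c, h1, 2 * T.len v, fun n => ?_⟩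
    have e : g ^ n = v * c ^ n * v⁻¹ := by rw [hg]; simp [conj_pow]
    have e' : c ^ n = v⁻¹ * g ^ n * v := by rw [e]; group
    have a1 := T.mul_le (v * c ^ n) v⁻¹
    have a2 := T.mul_le v (c ^ n)
    have a3 := T.mul_le (v⁻¹ * g ^ n) v
    have a4 := T.mul_le v⁻¹ (g ^ n)
    rw [← e] at a1
    rw [← e'] at a3
    rw [T.inv_eq] at a1 a4
    rw [h2] at a2 a3
    omega

lemma TL_not_ell {g : G} {m : ℕ} (hm : 1 ≤ m) (h : T.TL g m) : ¬ Ell A g := by
  intro he
  obtain ⟨C, hC⟩ := T.ell_bdd he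
  obtain ⟨D, hD⟩ := h
  have h1 := (hD (C + D + 1)).1
  have h2 := hC (C + D + 1)
  have : (C + D + 1) * 1 ≤ (C + D + 1) * m := Nat.mul_le_mul_left _ hm
  omega

lemma TL_conj {g : G} {m : ℕ} (h : T.TL g m) (v : G) : T.TL (v * g * v⁻¹) m := by
  obtain ⟨D, hD⟩ := h
  refine ⟨D + 2 * T.len v, fun n => ?_⟩
  have e : (v * g * v⁻¹) ^ n = v * g ^ n * v⁻¹ := by simp [conj_pow]
  have e' : g ^ n = v⁻¹ * (v * g * v⁻¹) ^ n * v := by rw [e]; group
  have a1 := T.mul_le (v * g ^ n) v⁻¹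
  have a2 := T.mul_le v (g ^ n)
  have a3 := T.mul_le (v⁻¹ * (v * g * v⁻¹) ^ n) v
  have a4 := T.mul_le v⁻¹ ((v * g * v⁻¹) ^ n)
  rw [← e] at a1
  rw [← e'] at a3
  rw [T.inv_eq] at a1 a4
  have := hD n
  omega

lemma TL_pow {g : G} {m : ℕ} (h : T.TL g m) (k : ℕ) : T.TL (g ^ k) (k * m) := by
  obtain ⟨D, hD⟩ := h
  refine ⟨D, fun n => ?_⟩
  have := hD (k * n)
  rw [← pow_mul]
  have e : n * (k * m) = k * n * m := by ring
  rw [e]; exact this

lemma TL_inv {g : G} {m : ℕ} (h : T.TL g m) : T.TL g⁻¹ m := by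
  obtain ⟨D, hD⟩ := h
  refine ⟨D, fun n => ?_⟩
  rw [inv_pow, T.inv_eq]
  exact hD n

include T in
lemma ell_mul {x y : G} (hc : Commute x y) (hx : Ell A x) (hy : Ell A y) : Ell A (x * y) := by
  obtain ⟨C, hC⟩ := T.ell_bdd hx
  obtain ⟨D, hD⟩ := T.ell_bdd hy
  rcases T.ell_or_TL (x * y) with h | ⟨m, hm, E, hE⟩
  · exact h
  · exfalso
    have h1 := (hE (C + D + E + 1)).1
    rw [hc.mul_pow] at h1
    have h2 := T.mul_le (x ^ (C + D + E + 1)) (y ^ (C + D + E + 1))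
    have h3 := hC (C + D + E + 1)
    have h4 := hD (C + D + E + 1)
    have : (C + D + E + 1) * 1 ≤ (C + D + E + 1) * m := Nat.mul_le_mul_left _ hm
    omega

include T in
/-- rank one property of commuting translations -/
lemma rank_one {x y : G} (hc : Commute x y) {m : ℕ} (hx : T.TL x m) (hy : T.TL y m) :
    Ell A (x * y) ∨ Ell A (x * y⁻¹) := by
  rcases T.ell_or_TL (x * y) with h | ⟨p, hp, E, hE⟩
  · exact Or.inl h
  rcases T.ell_or_TL (x * y⁻¹) with h | ⟨q, hq, F, hF⟩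
  · exact Or.inr h
  exfalso
  obtain ⟨C, hC⟩ := hx
  obtain ⟨D, hD⟩ := hy
  have hc' : Commute x y⁻¹ := hc.inv_right
  have key1 : ∀ n : ℕ, n * (p + q) ≤ 2 * n * m + (2 * C + 2 * D + E + F) := by
    intro n
    have h1 := T.four_point (x ^ n) (y ^ n) (x ^ n * y ^ n)
    have e1 : x ^ n * (x ^ n * y ^ n)⁻¹ = (y ^ n)⁻¹ := by
      have : x ^ n * y ^ n = y ^ n * x ^ n := (hc.pow_pow n n).eq
      rw [this]; group
    have e2 : y ^ n * (x ^ n * y ^ n)⁻¹ = (x ^ n)⁻¹ := by group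
    have e3 : x ^ n * (y ^ n)⁻¹ = (x * y⁻¹) ^ n := by rw [hc'.mul_pow, inv_pow]
    have e4 : x ^ n * y ^ n = (x * y) ^ n := by rw [hc.mul_pow]
    rw [e1, e2, e3, e4, T.inv_eq, T.inv_eq] at h1
    have a1 := (hE n).1
    have a2 := (hF n).1
    have a3 := (hC n).2
    have a4 := (hD n).2
    have : n * (p + q) = n * p + n * q := by ring
    have : 2 * n * m = n * m + n * m := by ring
    rcases le_max_iff.1 h1 with h | h <;> omega
  have key2 : ∀ n : ℕ, 2 * n * m ≤ n * max p q + (2 * C + 2 * D + E + F) := by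
    intro n
    have h1 := T.four_point (y ^ n) (y ^ n)⁻¹ (x ^ n)
    have e1 : y ^ n * ((y ^ n)⁻¹)⁻¹ = y ^ (2 * n) := by
      rw [inv_inv, ← pow_add]; congr 1; ring
    have e2 : T.len (y ^ n * (x ^ n)⁻¹) = T.len ((x * y⁻¹) ^ n) := by
      rw [← T.inv_eq, hc'.mul_pow, inv_pow]; congr 1; group
    have e3 : T.len ((y ^ n)⁻¹ * (x ^ n)⁻¹) = T.len ((x * y) ^ n) := by
      rw [← T.inv_eq, hc.mul_pow]; congr 1; group
    rw [e1, e2, e3, T.inv_eq] at h1
    have a1 := (hE n).2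
    have a2 := (hF n).2
    have a3 := (hC n).1
    have a4 := (hD n).2
    have a5 := (hD (2 * n)).1
    have b1 : n * p ≤ n * max p q := Nat.mul_le_mul_left _ (le_max_left _ _)
    have b2 : n * q ≤ n * max p q := Nat.mul_le_mul_left _ (le_max_right _ _)
    have : 2 * n * m = n * m + n * m := by ring
    rcases le_max_iff.1 h1 with h | h <;> omega
  set K := 2 * C + 2 * D + E + F with hK
  have f1 : p + q ≤ 2 * m := by
    by_contra hcon
    push Not at hcon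
    have h1 := key1 (K + 1)
    have h2 : (K + 1) * (2 * m + 1) ≤ (K + 1) * (p + q) := Nat.mul_le_mul_left _ hcon
    have h3 : (K + 1) * (2 * m + 1) = 2 * (K + 1) * m + (K + 1) := by ring
    omega
  have f2 : 2 * m ≤ max p q := by
    by_contra hcon
    push Not at hcon
    have h1 := key2 (K + 1)
    have h2 : (K + 1) * (max p q + 1) ≤ (K + 1) * (2 * m) := Nat.mul_le_mul_left _ hcon
    have h3 : (K + 1) * (max p q + 1) = (K + 1) * max p q + (K + 1) := by ring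
    have h4 : (K + 1) * (2 * m) = 2 * (K + 1) * m := by ring
    omega
  rcases le_max_iff.1 f2 with h | h <;> omega

include T in
lemma ell_of_pow {g : G} {n : ℕ} (hn : 0 < n) (h : Ell A (g ^ n)) : Ell A g := by
  rcases T.ell_or_TL g with h' | ⟨m, hm, hT⟩
  · exact h'
  · exfalso
    have := T.TL_pow hT n
    exact T.TL_not_ell (by nlinarith) this h

include T in
/-- no element inverts a hyperbolic element -/
lemma no_flip {g c : G} (hc : ¬ Ell A c)
    (h : g * c * g⁻¹ = c⁻¹) : False := by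
  have hg2 : Commute (g ^ 2) c := by
    have h1 : g * c⁻¹ * g⁻¹ = c := by
      have := congrArg (fun z => z⁻¹) h
      simp only [mul_inv_rev, inv_inv] at this
      rw [mul_assoc]; exact this
    have h2 : g ^ 2 * c * (g ^ 2)⁻¹ = c := by
      have : g ^ 2 * c * (g ^ 2)⁻¹ = g * (g * c * g⁻¹) * g⁻¹ := by
        rw [pow_two]; group
      rw [this, h, h1]
    have := congrArg (fun z => z * g ^ 2) h2
    simpa [Commute, SemiconjBy] using this
  rcases T.ell_or_TL g with ⟨v, hv⟩ | ⟨m, hm, hT⟩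
  · -- elliptic case
    have hodd : ∀ w : G, w⁻¹ * g ^ 2 * w ∈ A → w⁻¹ * g * w ∈ A := by
      intro w hw
      apply T.odd
      have : (w⁻¹ * g * w) ^ 2 = w⁻¹ * g ^ 2 * w := by rw [pow_two, pow_two]; group
      rw [this]; exact hw
    have h1 : v⁻¹ * g ^ 2 * v ∈ A := by
      have : (v⁻¹ * g * v) ^ 2 = v⁻¹ * g ^ 2 * v := by rw [pow_two, pow_two]; group
      rw [← this]; exact A.pow_mem hv 2
    have h2 : (c * v)⁻¹ * g ^ 2 * (c * v) ∈ A := by
      have : (c * v)⁻¹ * g ^ 2 * (c * v) = v⁻¹ * (c⁻¹ * (g ^ 2 * c)) * v := by group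
      rw [this, hg2.eq]
      have : v⁻¹ * (c⁻¹ * (c * g ^ 2)) * v = v⁻¹ * g ^ 2 * v := by group
      rw [this]; exact h1
    have h3 := hodd (c * v) h2
    have h4 : (c * v)⁻¹ * g * (c * v) = v⁻¹ * (c ^ 2)⁻¹ * g * v := by
      have : g * c = c⁻¹ * g := by rw [← h]; group
      calc (c * v)⁻¹ * g * (c * v) = v⁻¹ * c⁻¹ * (g * c) * v := by group
        _ = v⁻¹ * c⁻¹ * (c⁻¹ * g) * v := by rw [this]
        _ = _ := by group
    rw [h4] at h3
    have h5 : v⁻¹ * (c ^ 2)⁻¹ * v ∈ A := by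
      have := A.mul_mem h3 (A.inv_mem hv)
      convert this using 1
      group
    have h6 : Ell A ((c ^ 2)⁻¹) := ⟨v, h5⟩
    have h7 := ell_inv h6
    rw [inv_inv] at h7
    exact hc (T.ell_of_pow (by norm_num) h7)
  · rcases T.ell_or_TL c with hc' | ⟨q, hq, hT'⟩
    · exact hc hc'
    -- X = g ^ (2 q), Y = c ^ (2 m)
    have hX : T.TL (g ^ (2 * q)) (2 * q * m) := T.TL_pow hT _
    have hY : T.TL (c ^ (2 * m)) (2 * q * m) := by
      have := T.TL_pow hT' (2 * m)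
      have e : 2 * m * q = 2 * q * m := by ring
      rwa [e] at this
    have hXY : Commute (g ^ (2 * q)) (c ^ (2 * m)) := by
      rw [pow_mul]; exact (hg2.pow_pow q (2 * m))
    have hconj : g * c ^ (2 * m) * g⁻¹ = (c ^ (2 * m))⁻¹ := by
      rw [← conj_pow, h, inv_pow]
    have both : Ell A (g ^ (2 * q) * c ^ (2 * m)) ∧ Ell A (g ^ (2 * q) * (c ^ (2 * m))⁻¹) := by
      have hc1 : g * (g ^ (2 * q) * c ^ (2 * m)) * g⁻¹ = g ^ (2 * q) * (c ^ (2 * m))⁻¹ := by
        rw [← hconj]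
        have : g * g ^ (2 * q) = g ^ (2 * q) * g := by rw [← pow_succ', pow_succ]
        calc g * (g ^ (2 * q) * c ^ (2 * m)) * g⁻¹ = (g * g ^ (2 * q)) * c ^ (2 * m) * g⁻¹ := by group
          _ = (g ^ (2 * q) * g) * c ^ (2 * m) * g⁻¹ := by rw [this]
          _ = _ := by group
      have hc2 : g * (g ^ (2 * q) * (c ^ (2 * m))⁻¹) * g⁻¹ = g ^ (2 * q) * c ^ (2 * m) := by
        have hconj' : g * (c ^ (2 * m))⁻¹ * g⁻¹ = c ^ (2 * m) := by
          have := congrArg (fun z => z⁻¹) hconj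
          simp only [mul_inv_rev, inv_inv] at this
          rw [mul_assoc]; exact this
        have : g * g ^ (2 * q) = g ^ (2 * q) * g := by rw [← pow_succ', pow_succ]
        calc g * (g ^ (2 * q) * (c ^ (2 * m))⁻¹) * g⁻¹
            = (g * g ^ (2 * q)) * (c ^ (2 * m))⁻¹ * g⁻¹ := by group
          _ = (g ^ (2 * q) * g) * (c ^ (2 * m))⁻¹ * g⁻¹ := by rw [this]
          _ = g ^ (2 * q) * (g * (c ^ (2 * m))⁻¹ * g⁻¹) := by group
          _ = _ := by rw [hconj']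
      rcases T.rank_one hXY hX hY with hh | hh
      · refine ⟨hh, ?_⟩
        have := ell_conj hh g
        rwa [hc1] at this
      · refine ⟨?_, hh⟩
        have := ell_conj hh g
        rwa [hc2] at this
    have hcomm : Commute (g ^ (2 * q) * c ^ (2 * m)) (g ^ (2 * q) * (c ^ (2 * m))⁻¹) := by
      have a1 : Commute (g ^ (2 * q)) (g ^ (2 * q) * (c ^ (2 * m))⁻¹) :=
        (Commute.refl _).mul_right hXY.inv_right
      have a2 : Commute (c ^ (2 * m)) (g ^ (2 * q) * (c ^ (2 * m))⁻¹) :=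
        hXY.symm.mul_right (Commute.refl _).inv_right
      exact a1.mul_left a2
    have hprod := T.ell_mul hcomm both.1 both.2
    have e : g ^ (2 * q) * c ^ (2 * m) * (g ^ (2 * q) * (c ^ (2 * m))⁻¹) = g ^ (4 * q) := by
      have : c ^ (2 * m) * g ^ (2 * q) = g ^ (2 * q) * c ^ (2 * m) := hXY.symm.eq
      calc g ^ (2 * q) * c ^ (2 * m) * (g ^ (2 * q) * (c ^ (2 * m))⁻¹)
          = g ^ (2 * q) * (c ^ (2 * m) * g ^ (2 * q)) * (c ^ (2 * m))⁻¹ := by group
        _ = g ^ (2 * q) * (g ^ (2 * q) * c ^ (2 * m)) * (c ^ (2 * m))⁻¹ := by rw [this]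
        _ = g ^ (2 * q) * g ^ (2 * q) := by group
        _ = g ^ (4 * q) := by rw [← pow_add]; congr 1; ring
    rw [e] at hprod
    have := T.ell_of_pow (g := g) (n := 4 * q) (by omega) hprod
    exact T.TL_not_ell hm hT this

end TreeLen

end Pool.Agent.BSAuto
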