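import Pool.Agent.BSAuto.HNNLength
import Pool.Agent.BSAuto.TreeLen

/-! The length function of an HNN extension is a tree length function. -/

set_option autoImplicit false

namespace Pool.Agent.BSAuto

open HNNExtension HNNExtension.NormalWord

variable {G : Type*} [Group G] {A B : Subgroup G} (φ : A ≃* B)

lemma t_conj_mem (u : ℤˣ) (x : G) (hx : x ∈ toSubgroup A B u) :
    ∃ z : G, (t ^ (u : ℤ) * of x * t ^ (-(u : ℤ)) : HNNExtension G A B φ) = of z := by
  rcases Int.units_eq_one_or u with rfl | rfl
  · refine ⟨φ ⟨x, hx⟩, ?_⟩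
    have := equiv_eq_conj (φ := φ) ⟨x, hx⟩
    simp at this ⊢
    exact this.symm
  · refine ⟨φ.symm ⟨x, hx⟩, ?_⟩
    have := equiv_symm_eq_conj (φ := φ) ⟨x, hx⟩
    simp at this ⊢
    exact this.symm

lemma britton2 (u : ℤˣ) (x : G)
    (h : (t ^ (u : ℤ) * of x * t ^ (-(u : ℤ)) : HNNExtension G A B φ) ∈
      (of.range : Subgroup (HNNExtension G A B φ))) :
    x ∈ toSubgroup A B u := by
  by_contra hx
  let w : ReducedWord G A B := ⟨1, [(u, x), (-u, 1)], by
    simp [hx]⟩
  have := ReducedWord.toList_eq_nil_of_mem_of_range φ w (by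
    simpa [w, ReducedWord.prod] using h)
  simp [w] at this

lemma isChain_PL (g : HNNExtension G A B φ) :
    (PL φ g).IsChain (fun a b => a.2 ∈ toSubgroup A B a.1 → a.1 = b.1) :=
  (g • (empty : NormalWord (trv A B))).chain

lemma exists_conj_reduced (g : HNNExtension G A B φ) :
    ∃ v c, g = v * c * v⁻¹ ∧ (c ∈ (of.range : Subgroup (HNNExtension G A B φ)) ∨
      (0 < len φ c ∧ ∀ n : ℕ, len φ (c ^ n) = n * len φ c)) := by
  induction hn : len φ g using Nat.strong_induction_on generalizing g with
  | _ n ih =>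
  by_cases h0 : len φ g = 0
  · exact ⟨1, g, by simp, Or.inl ((len_eq_zero_iff φ g).1 h0)⟩
  obtain ⟨x, hx⟩ := eq_of_mul_prodL φ g
  have hch := isChain_PL φ g
  have hlen : (PL φ g).length = n := hn
  rcases List.eq_nil_or_concat (PL φ g) with hnil | ⟨L0, ⟨u, y⟩, hL⟩
  · exfalso; rw [hnil] at hlen; simp at hlen; omega
  rw [List.concat_eq_append] at hL
  rw [hL] at hch hx hlen
  set L' : List (ℤˣ × G) := L0 ++ [(u, y * x)] with hL'
  have hprod : prodL φ L' = prodL φ (L0 ++ [(u, y)]) * of x := by
    simp [hL', prodL_append, mul_assoc]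
  have hg : g = of x * prodL φ L' * (of x)⁻¹ := by
    rw [hprod]; conv_lhs => rw [hx]
    group
  have hch' : L'.IsChain (fun a b => a.2 ∈ toSubgroup A B a.1 → a.1 = b.1) := by
    rw [hL', List.isChain_append]
    rw [List.isChain_append] at hch
    refine ⟨hch.1, by simp, ?_⟩
    intro a ha b hb
    simp only [List.head?_cons, Option.mem_def, Option.some.injEq] at hb
    subst hb
    exact hch.2.2 a ha (u, y) (by simp)
  have hlenL' : L'.length = n := by rw [← hlen]; simp [hL']
  have hgood : (∀ b ∈ L'.head?, (y * x ∈ toSubgroup A B u → u = b.1)) →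
      ∃ v c, g = v * c * v⁻¹ ∧ (c ∈ (of.range : Subgroup (HNNExtension G A B φ)) ∨
      (0 < len φ c ∧ ∀ n : ℕ, len φ (c ^ n) = n * len φ c)) := by
    intro hj
    have hrep : ∀ k : ℕ, (List.replicate k L').flatten.IsChain
        (fun a b => a.2 ∈ toSubgroup A B a.1 → a.1 = b.1) ∧
        prodL φ ((List.replicate k L').flatten) = (prodL φ L') ^ k ∧
        ((List.replicate k L').flatten).length = k * L'.length := by
      intro k
      induction k with
      | zero => simp
      | succ k ihk =>
        rw [List.replicate_succ, List.flatten_cons]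
        refine ⟨?_, ?_, ?_⟩
        · rw [List.isChain_append]
          refine ⟨hch', ihk.1, ?_⟩
          intro a ha b hb
          have ha' : a = (u, y * x) := by
            simp [hL'] at ha; exact ha.symm
          have hb' : b ∈ L'.head? := by
            cases k with
            | zero => simp at hb
            | succ k =>
              rw [List.replicate_succ, List.flatten_cons] at hb
              rw [List.head?_append_of_ne_nil] at hb
              · exact hb
              · simp [hL']
          subst ha'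
          exact hj b hb'
        · rw [prodL_append, ihk.2.1, pow_succ']
        · rw [List.length_append, ihk.2.2]; ring
    have hl1 : len φ (prodL φ L') = L'.length := len_prodL_of_chain φ L' hch'
    refine ⟨of x, prodL φ L', hg, Or.inr ⟨by rw [hl1, hlenL']; omega, fun k => ?_⟩⟩
    rw [← (hrep k).2.1, len_prodL_of_chain φ _ (hrep k).1, (hrep k).2.2, hl1]
  by_cases hj : (∀ b ∈ L'.head?, (y * x ∈ toSubgroup A B u → u = b.1))
  · exact hgood hj
  · push Not at hj
    obtain ⟨⟨u1, g1⟩, hb, hmem, hne⟩ := hj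
    cases L0 with
    | nil =>
      exfalso
      simp [hL'] at hb
      exact hne hb.1
    | cons a M =>
      have ha : a = (u1, g1) := by
        simp [hL'] at hb; exact hb
      subst ha
      have hu1 : u1 = -u := by
        simp only at hne
        rcases Int.units_eq_one_or u with rfl | rfl <;>
          rcases Int.units_eq_one_or u1 with rfl | rfl <;> simp_all
      obtain ⟨z, hz⟩ := t_conj_mem φ u (y * x) hmem
      set p : HNNExtension G A B φ := t ^ (u : ℤ) * of (y * x) with hp
      have hc' : prodL φ L' = t ^ (u1 : ℤ) * of g1 * prodL φ M * p := by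
        simp [hL', prodL_append, hp, mul_assoc]
      have hc'' : p * prodL φ L' * p⁻¹ = of z * of g1 * prodL φ M := by
        rw [hc', hu1]
        have : p * (t ^ ((-u : ℤˣ) : ℤ) * of g1 * prodL φ M * p) * p⁻¹ =
          (p * t ^ (-(u : ℤ))) * of g1 * prodL φ M := by
          simp only [Units.val_neg]; group
        rw [this, hp, hz]
      have hlt : len φ (of z * of g1 * prodL φ M) < n := by
        have h1 := len_prodL_mul_le φ M 1
        rw [mul_one, len_one] at h1
        rw [mul_assoc, len_of_mul, len_of_mul]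
        have : n = M.length + 2 := by rw [← hlenL', hL']; simp
        omega
      obtain ⟨v, c, hv, hcc⟩ := ih _ hlt _ rfl
      refine ⟨of x * p⁻¹ * v, c, ?_, hcc⟩
      have h2 : prodL φ L' = p⁻¹ * (of z * of g1 * prodL φ M) * p := by
        rw [← hc'']; group
      rw [hg, h2, hv]; group

lemma odd_aux (hodd : ∀ (u : ℤˣ) (x : G), x ^ 2 ∈ toSubgroup A B u → x ∈ toSubgroup A B u)
    (n : ℕ) : ∀ (w g : HNNExtension G A B φ), len φ w ≤ n →
    w * g * w⁻¹ ∈ (of.range : Subgroup (HNNExtension G A B φ)) →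
    g ^ 2 ∈ (of.range : Subgroup (HNNExtension G A B φ)) →
    g ∈ (of.range : Subgroup (HNNExtension G A B φ)) := by
  induction n with
  | zero =>
    intro w g hw h1 _
    have hw' : w ∈ (of.range : Subgroup (HNNExtension G A B φ)) :=
      (len_eq_zero_iff φ w).1 (by omega)
    have := mul_mem (mul_mem (inv_mem hw') h1) hw'
    convert this using 1
    group
  | succ n ih =>
    intro w g hw h1 h2
    by_cases hwn : len φ w ≤ n
    · exact ih w g hwn h1 h2
    have hw1 : len φ w = n + 1 := by omega
    obtain ⟨x, hx⟩ := eq_of_mul_prodL φ w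
    have hlen : (PL φ w).length = n + 1 := hw1
    rcases List.eq_nil_or_concat (PL φ w) with hnil | ⟨L0, ⟨u, y⟩, hL⟩
    · exfalso; rw [hnil] at hlen; simp at hlen
    rw [List.concat_eq_append] at hL
    rw [hL] at hx hlen
    have hL0 : L0.length = n := by simpa using hlen
    set p : HNNExtension G A B φ := t ^ (u : ℤ) * of y with hp
    set w' : HNNExtension G A B φ := of x * prodL φ L0 with hw'
    have hww : w = w' * p := by
      rw [hw']; conv_lhs => rw [hx]
      simp [prodL_append, hp, mul_assoc]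
    have hlw' : len φ w' ≤ n := by
      rw [hw', len_of_mul]
      have := len_prodL_mul_le φ L0 1
      rw [mul_one, len_one] at this
      omega
    have hlp : len φ p ≤ 1 := by
      have a1 := len_t_mul_le φ u (of y)
      rw [len_of] at a1
      exact a1
    -- p g^2 p⁻¹ ∈ range
    have hpg : p * g ^ 2 * p⁻¹ ∈ (of.range : Subgroup (HNNExtension G A B φ)) := by
      rw [← len_eq_zero_iff]
      have fp := four_point φ (p * g ^ 2) p w
      have e1 : len φ (p * g ^ 2 * w⁻¹) = len φ w' := by
        have : p * g ^ 2 * w⁻¹ = w'⁻¹ * (w * g * w⁻¹) ^ 2 := by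
          rw [conj_pow, hww]; group
        obtain ⟨z, hz⟩ := (pow_mem h1 2 : (w * g * w⁻¹) ^ 2 ∈ (of.range : Subgroup (HNNExtension G A B φ)))
        rw [this, ← hz, len_mul_of, len_inv]
      have e2 : len φ (p * w⁻¹) = len φ w' := by
        have : p * w⁻¹ = w'⁻¹ := by rw [hww]; group
        rw [this, len_inv]
      have e3 : len φ (p * g ^ 2) = len φ p := by
        obtain ⟨z, hz⟩ := h2
        rw [← hz, len_mul_of]
      rw [e1, e2, e3] at fp
      rcases le_max_iff.1 fp with h | h <;> omega
    have hg' : p * g * p⁻¹ ∈ (of.range : Subgroup (HNNExtension G A B φ)) := by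
      apply ih w' (p * g * p⁻¹) hlw'
      · have : w' * (p * g * p⁻¹) * w'⁻¹ = w * g * w⁻¹ := by rw [hww]; group
        rw [this]; exact h1
      · rw [conj_pow]; exact hpg
    obtain ⟨α, hα⟩ := hg'
    have hgα : g = (of y)⁻¹ * (t ^ (-(u : ℤ)) * of α * t ^ (u : ℤ)) * of y := by
      rw [hα, hp]; group
    have hα2 : (t ^ (-(u : ℤ)) * of (α ^ 2) * t ^ (u : ℤ) : HNNExtension G A B φ) ∈
        (of.range : Subgroup (HNNExtension G A B φ)) := by
      have : (t ^ (-(u : ℤ)) * of (α ^ 2) * t ^ (u : ℤ) : HNNExtension G A B φ) =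
          of y * g ^ 2 * (of y)⁻¹ := by
        rw [hgα, map_pow, pow_two, pow_two]; group
      rw [this]
      exact mul_mem (mul_mem ⟨y, rfl⟩ h2) (inv_mem ⟨y, rfl⟩)
    have hα3 : α ^ 2 ∈ toSubgroup A B (-u) := by
      apply britton2 φ (-u)
      simpa using hα2
    have hα4 := hodd _ _ hα3
    obtain ⟨z, hz⟩ := t_conj_mem φ (-u) α hα4
    rw [hgα]
    have hz' : (t ^ (-(u : ℤ)) * of α * t ^ (u : ℤ) : HNNExtension G A B φ) = of z := by
      simpa using hz
    rw [hz']
    exact mul_mem (mul_mem (inv_mem ⟨y, rfl⟩) ⟨z, rfl⟩) ⟨y, rfl⟩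

lemma odd_range (hodd : ∀ (u : ℤˣ) (x : G), x ^ 2 ∈ toSubgroup A B u → x ∈ toSubgroup A B u)
    (g : HNNExtension G A B φ) (h2 : g ^ 2 ∈ (of.range : Subgroup (HNNExtension G A B φ))) :
    g ∈ (of.range : Subgroup (HNNExtension G A B φ)) := by
  obtain ⟨v, c, hg, hc | ⟨hc1, hc2⟩⟩ := exists_conj_reduced φ g
  · apply odd_aux φ hodd (len φ v⁻¹) v⁻¹ g le_rfl _ h2
    rw [hg]; convert hc using 1; group
  · exfalso
    have h3 := hc2 (2 * (2 * len φ v + 1))
    have h4 : c ^ (2 * (2 * len φ v + 1)) = v⁻¹ * (g ^ 2) ^ (2 * len φ v + 1) * v := by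
      rw [← pow_mul, hg, conj_pow]; group
    have h5 : len φ ((g ^ 2) ^ (2 * len φ v + 1)) = 0 :=
      (len_eq_zero_iff φ _).2 (pow_mem h2 _)
    have h6 := len_mul_le φ (v⁻¹ * (g ^ 2) ^ (2 * len φ v + 1)) v
    have h7 := len_mul_le φ v⁻¹ ((g ^ 2) ^ (2 * len φ v + 1))
    rw [len_inv] at h7
    rw [h4] at h3
    have : 2 * (2 * len φ v + 1) * 1 ≤ 2 * (2 * len φ v + 1) * len φ c :=
      Nat.mul_le_mul_left _ hc1
    omega

/-- the tree length function of an HNN extension with 2-isolated associated subgroups -/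
noncomputable def treeLenHNN
    (hodd : ∀ (u : ℤˣ) (x : G), x ^ 2 ∈ toSubgroup A B u → x ∈ toSubgroup A B u) :
    TreeLen (HNNExtension G A B φ) (of.range) where
  len := len φ
  mul_le := len_mul_le φ
  inv_eq := len_inv φ
  zero_iff := len_eq_zero_iff φ
  four_point := four_point φ
  conj_red := exists_conj_reduced φ
  odd := odd_range φ hodd

/-- transfer along an isomorphism -/
noncomputable def TreeLen.comap {G H : Type*} [Group G] [Group H] {A : Subgroup H}
    (T : TreeLen H A) (f : G ≃* H) (B : Subgroup G) (hB : ∀ g, g ∈ B ↔ f g ∈ A) : TreeLen G B where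
  len g := T.len (f g)
  mul_le g h := by rw [map_mul]; exact T.mul_le _ _
  inv_eq g := by rw [map_inv]; exact T.inv_eq _
  zero_iff g := by rw [T.zero_iff, hB]
  four_point g h k := by
    simp only [map_mul, map_inv]; exact T.four_point _ _ _
  conj_red g := by
    obtain ⟨v, c, h1, h2⟩ := T.conj_red (f g)
    refine ⟨f.symm v, f.symm c, ?_, ?_⟩
    · apply f.injective
      simp [h1]
    · rcases h2 with h | ⟨h3, h4⟩
      · left; rw [hB]; simpa using h
      · right; simpa using ⟨h3, h4⟩
  odd g h := by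
    rw [hB] at h ⊢
    rw [map_pow] at h
    exact T.odd _ h

end Pool.Agent.BSAuto
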