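import Pool.Agent.BSAuto.Cocycle

/-! Exponential lower bound for the cocycle norm. -/

set_option autoImplicit false

namespace Pool.Agent.BSAuto

/-- exponents -/
def Nn : ℕ → ℕ
  | 0 => 1
  | k + 1 => (5 * Nn k + Nn k % 3) / 3

/-- words representing `a^(5 N_k)` -/
def Wd : ℕ → F
  | 0 => fa ^ 5
  | k + 1 => ft * fa ^ (Nn k % 3) * Wd k * ft⁻¹

/-- `t a t^-1` -/
def bb : F := ft * fa * ft⁻¹

/-- null-homotopic words with large area -/
def wd (k : ℕ) : F := bb * Wd k * bb⁻¹ * (Wd k)⁻¹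

lemma Nn_succ (k : ℕ) : 3 * Nn (k + 1) = 5 * Nn k + Nn k % 3 := by
  have : Nn (k + 1) = (5 * Nn k + Nn k % 3) / 3 := rfl
  rw [this]; omega

lemma mkP_Wd (k : ℕ) : mkP (Wd k) = pa ^ (5 * Nn k) := by
  induction k with
  | zero => simp [Wd, Nn, mkP_fa]
  | succ k ih =>
    have h1 : mkP (Wd (k + 1)) = pt * pa ^ (Nn k % 3) * pa ^ (5 * Nn k) * pt⁻¹ := by
      change mkP (ft * fa ^ (Nn k % 3) * Wd k * ft⁻¹) = _
      rw [map_mul, map_mul, map_mul, map_pow, map_inv, ih, mkP_ft, mkP_fa]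
    rw [h1, mul_assoc pt, ← pow_add]
    have h2 : Nn k % 3 + 5 * Nn k = 3 * Nn (k + 1) := by rw [Nn_succ]; omega
    rw [h2, pow_mul, ← conj_pow, rel_P, pow_mul]

lemma mkP_bb : mkP bb = pt * pa * pt⁻¹ := by
  simp [bb, mkP_fa, mkP_ft]

lemma comm_bb (k : ℕ) : (pt * pa * pt⁻¹) * pa ^ (5 * Nn k) = pa ^ (5 * Nn k) * (pt * pa * pt⁻¹) := by
  rw [pow_mul, ← rel_P, conj_pow]
  have : pa * (pa ^ 3) ^ Nn k = (pa ^ 3) ^ Nn k * pa := by
    rw [← pow_mul, ← pow_succ', ← pow_succ]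
  calc pt * pa * pt⁻¹ * (pt * (pa ^ 3) ^ Nn k * pt⁻¹) = pt * (pa * (pa ^ 3) ^ Nn k) * pt⁻¹ := by group
    _ = pt * ((pa ^ 3) ^ Nn k * pa) * pt⁻¹ := by rw [this]
    _ = _ := by group

lemma mkP_wd (k : ℕ) : mkP (wd k) = 1 := by
  simp only [wd, map_mul, map_inv, mkP_bb, mkP_Wd]
  rw [comm_bb]; group

/-- the recursion for `Df (Wd (k+1))` -/
lemma Df_fa_pow (n : ℕ) (x : X) : Df (fa ^ n) x = 0 := by
  induction n generalizing x with
  | zero => rw [pow_zero, Df_one]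
  | succ n ih => rw [pow_succ, Df_mul, ih, Df_fa]; simp

lemma act_pa_pow (n : ℕ) (x : X) : act (pa ^ n) x = (x.1 + n, x.2) := by
  rw [map_pow]
  have h4 : act pa = permA := by simp [act]
  rw [h4, permA_pow]

lemma act_pa_pow_inv (n : ℕ) (x : X) : (act (pa ^ n))⁻¹ x = (x.1 - n, x.2) := by
  rw [Equiv.Perm.inv_eq_iff_eq, act_pa_pow]
  ext <;> simp

lemma act_pt_inv (x : X) : (act pt)⁻¹ x = (3 / 5 * x.1, x.2 - 1) := by
  rw [Equiv.Perm.inv_eq_iff_eq, act_pt]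
  ext
  · simp only; ring
  · simp

/-- `S_k(x) = ((t a^r) • D(W_k))(x)` -/
noncomputable def SS (k : ℕ) (x : X) : ℤ :=
  Df (Wd k) (3 / 5 * x.1 - (Nn k % 3 : ℕ), x.2 - 1)

lemma Df_Wd_succ (k : ℕ) (x : X) :
    Df (Wd (k + 1)) x = tau x - tau (x.1 - (5 * Nn (k + 1) : ℕ), x.2) + SS k x := by
  have h0 : Wd (k + 1) = ft * fa ^ (Nn k % 3) * Wd k * ft⁻¹ := rfl
  have hW := mkP_Wd (k + 1)
  rw [h0, Df_mul, Df_mul, Df_mul, Df_inv, Df_fa_pow, Df_ft, Df_ft]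
  have h1 : (act (mkP ft)) ((act (mkP (ft * fa ^ (Nn k % 3) * Wd k)))⁻¹ x) =
      (x.1 - (5 * Nn (k + 1) : ℕ), x.2) := by
    have h2 : act (mkP ft) * (act (mkP (ft * fa ^ (Nn k % 3) * Wd k)))⁻¹ =
        (act (pa ^ (5 * Nn (k + 1))))⁻¹ := by
      rw [← hW, h0, map_mul mkP _ ft⁻¹, map_mul act, map_inv mkP, map_inv act]
      group
    rw [← Equiv.Perm.mul_apply, h2, act_pa_pow_inv]
  have h3 : (act (mkP (ft * fa ^ (Nn k % 3))))⁻¹ x =
      (3 / 5 * x.1 - (Nn k % 3 : ℕ), x.2 - 1) := by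
    rw [map_mul mkP, map_mul act, mul_inv_rev, Equiv.Perm.mul_apply, mkP_ft, act_pt_inv,
      map_pow mkP, mkP_fa, act_pa_pow_inv]
  rw [h1, h3, SS]
  ring

lemma Df_Wd_neg (k : ℕ) : ∀ x : X, x.2 < 0 → Df (Wd k) x = 0 := by
  induction k with
  | zero => intro x _; exact Df_fa_pow 5 x
  | succ k ih =>
    intro x hx
    rw [Df_Wd_succ]
    have h1 : tau x = 0 := by
      simp only [tau]; rw [if_neg]; rintro ⟨h, _⟩; omega
    have h2 : tau (x.1 - (5 * Nn (k + 1) : ℕ), x.2) = 0 := by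
      simp only [tau]; rw [if_neg]; rintro ⟨h, _⟩; omega
    have h3 : SS k x = 0 := by
      apply ih
      simp only; omega
    rw [h1, h2, h3]; ring

lemma Df_Wd_succ_zero (k : ℕ) (y : ℚ) :
    Df (Wd (k + 1)) (y, 0) = tau (y, 0) - tau (y - (5 * Nn (k + 1) : ℕ), 0) := by
  rw [Df_Wd_succ]
  have : SS k (y, 0) = 0 := by
    apply Df_Wd_neg
    simp
  rw [this]; ring

lemma Df_wd_succ (k : ℕ) (x : X) :
    Df (wd (k + 1)) x = SS k (x.1 - 5 / 3, x.2) - SS k x := by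
  have hb : ∀ y : X, (act (mkP bb))⁻¹ y = (y.1 - 5 / 3, y.2) := by
    intro y
    rw [mkP_bb, Equiv.Perm.inv_eq_iff_eq, map_mul, map_mul, Equiv.Perm.mul_apply,
      Equiv.Perm.mul_apply, map_inv, act_pt_inv, act_pa, act_pt]
    ext
    · simp only; ring
    · simp
  have hW : ∀ y : X, (act (mkP (Wd (k + 1))))⁻¹ y = (y.1 - (5 * Nn (k + 1) : ℕ), y.2) := by
    intro y
    rw [mkP_Wd, act_pa_pow_inv]
  have hDb : ∀ y : X, Df bb y = tau y - tau (y.1 - 5 / 3, y.2) := by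
    intro y
    have h1 : (act (mkP ft)) ((act (mkP (ft * fa)))⁻¹ y) = (y.1 - 5 / 3, y.2) := by
      rw [← hb y]
      have h2 : act (mkP ft) * (act (mkP (ft * fa)))⁻¹ = (act (mkP bb))⁻¹ := by
        rw [bb, map_mul mkP _ ft⁻¹, map_mul act, map_inv mkP, map_inv act]
        group
      rw [← Equiv.Perm.mul_apply, h2]
    rw [bb, Df_mul, Df_mul, Df_inv, Df_ft, Df_ft, Df_fa, h1]
    ring
  have e1 : (act (mkP bb)) ((act (mkP (bb * Wd (k + 1))))⁻¹ x) =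
      (x.1 - (5 * Nn (k + 1) : ℕ), x.2) := by
    rw [← hW x]
    have h2 : act (mkP bb) * (act (mkP (bb * Wd (k + 1))))⁻¹ = (act (mkP (Wd (k + 1))))⁻¹ := by
      have h5 : mkP bb * (mkP (bb * Wd (k + 1)))⁻¹ = (mkP (Wd (k + 1)))⁻¹ := by
        rw [map_mul mkP, mkP_bb, mkP_Wd]
        have := comm_bb (k + 1)
        rw [this]; group
      rw [← map_inv, ← map_mul, h5, map_inv]
    rw [← Equiv.Perm.mul_apply, h2]
  have e2 : (act (mkP (Wd (k + 1)))) ((act (mkP (bb * Wd (k + 1) * bb⁻¹)))⁻¹ x) = x := by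
    have h2 : act (mkP (Wd (k + 1))) * (act (mkP (bb * Wd (k + 1) * bb⁻¹)))⁻¹ = 1 := by
      have h5 : mkP (Wd (k + 1)) * (mkP (bb * Wd (k + 1) * bb⁻¹))⁻¹ = 1 := by
        rw [map_mul mkP, map_mul mkP, map_inv mkP, mkP_bb, mkP_Wd]
        have := comm_bb (k + 1)
        rw [this]; group
      rw [← map_inv, ← map_mul, h5, map_one]
    rw [← Equiv.Perm.mul_apply, h2]; rfl
  rw [wd, Df_mul, Df_mul, Df_mul, Df_inv, Df_inv, e1, e2, hb, hDb, hDb, Df_Wd_succ, Df_Wd_succ]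
  ring_nf

lemma Nn_pos (k : ℕ) : 0 < Nn k := by
  induction k with
  | zero => simp [Nn]
  | succ k ih =>
    have := Nn_succ k; omega

/-- the cocycle norm of `wd (k+2)` is at least `N_{k+1}` -/
lemma lower_bound (k m : ℕ) (h : Bd (Df (wd (k + 2))) m) : Nn (k + 1) ≤ m := by
  classical
  set N := Nn (k + 1) with hN
  set r := N % 3 with hr
  have hinj : Function.Injective (fun i : ℕ => ((5 * (5 * (i : ℚ) + r) / 3, (1 : ℤ)) : X)) := by
    intro i j hij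
    have h1 := congrArg Prod.fst hij
    simp only at h1
    have : (i : ℚ) = j := by linarith
    exact_mod_cast this
  have hval : ∀ i : ℕ, i < N → |Df (wd (k + 2)) (5 * (5 * (i : ℚ) + r) / 3, (1 : ℤ))| = 1 := by
    intro i hi
    rw [Df_wd_succ (k + 1)]
    simp only [SS]
    have a1 : (3 / 5 * (5 * (5 * (i : ℚ) + r) / 3 - 5 / 3) - ((Nn (k + 1) % 3 : ℕ) : ℚ)) = 5 * i - 1 := by
      rw [← hN, ← hr]; ring
    have a2 : (3 / 5 * (5 * (5 * (i : ℚ) + r) / 3) - ((Nn (k + 1) % 3 : ℕ) : ℚ)) = 5 * i := by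
      rw [← hN, ← hr]; ring
    have a3 : (1 : ℤ) - 1 = 0 := by norm_num
    rw [a1, a2, a3, Df_Wd_succ_zero, Df_Wd_succ_zero, ← hN]
    have t1 : tau ((5 * (i : ℚ) - 1, 0) : X) = 0 := by
      simp only [tau]
      rw [if_neg]
      rintro ⟨_, j, hj⟩
      have : (5 * (i : ℤ) - 1 : ℤ) = 5 * (j : ℤ) := by exact_mod_cast hj
      omega
    have t2 : tau ((5 * (i : ℚ) - 1 - (5 * N : ℕ), 0) : X) = 0 := by
      simp only [tau]
      rw [if_neg]
      rintro ⟨_, j, hj⟩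
      have : (5 * (i : ℤ) - 1 - (5 * N : ℕ) : ℤ) = 5 * (j : ℤ) := by exact_mod_cast hj
      omega
    have t3 : tau ((5 * (i : ℚ), 0) : X) = 1 := by
      simp only [tau]
      rw [if_pos]
      exact ⟨trivial, i, rfl⟩
    have t4 : tau ((5 * (i : ℚ) - (5 * N : ℕ), 0) : X) = 0 := by
      simp only [tau]
      rw [if_neg]
      rintro ⟨_, j, hj⟩
      have : (5 * (i : ℤ) - (5 * N : ℕ) : ℤ) = 5 * (j : ℤ) := by exact_mod_cast hj
      push_cast at this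
      omega
    rw [t1, t2, t3, t4]
    norm_num
  have hs := h ((Finset.range N).map ⟨_, hinj⟩)
  rw [Finset.sum_map] at hs
  simp only [Function.Embedding.coeFn_mk] at hs
  rw [Finset.sum_congr rfl (fun i hi => hval i (Finset.mem_range.1 hi))] at hs
  simp at hs
  exact hs

lemma norm_Wd (k : ℕ) : (Wd k).norm ≤ 5 + 4 * k := by
  induction k with
  | zero =>
    have : Wd 0 = FreeGroup.of 0 ^ 5 := rfl
    rw [this, FreeGroup.norm_of_pow]
  | succ k ih =>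
    have h0 : Wd (k + 1) = ft * fa ^ (Nn k % 3) * Wd k * ft⁻¹ := rfl
    rw [h0]
    have a1 := FreeGroup.norm_mul_le (ft * fa ^ (Nn k % 3) * Wd k) ft⁻¹
    have a2 := FreeGroup.norm_mul_le (ft * fa ^ (Nn k % 3)) (Wd k)
    have a3 := FreeGroup.norm_mul_le ft (fa ^ (Nn k % 3))
    have a4 : ft.norm = 1 := FreeGroup.norm_of 1
    have a5 : (ft⁻¹).norm = 1 := by rw [FreeGroup.norm_inv_eq, a4]
    have a6 : (fa ^ (Nn k % 3)).norm = Nn k % 3 := FreeGroup.norm_of_pow 0 _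
    have a7 : Nn k % 3 < 3 := Nat.mod_lt _ (by norm_num)
    omega

lemma norm_wd (k : ℕ) : (wd k).norm ≤ 16 + 8 * k := by
  have a1 := FreeGroup.norm_mul_le (bb * Wd k * bb⁻¹) (Wd k)⁻¹
  have a2 := FreeGroup.norm_mul_le (bb * Wd k) bb⁻¹
  have a3 := FreeGroup.norm_mul_le bb (Wd k)
  have a4 := FreeGroup.norm_mul_le (ft * fa) ft⁻¹
  have a5 := FreeGroup.norm_mul_le ft fa
  have a6 : ft.norm = 1 := FreeGroup.norm_of 1
  have a7 : fa.norm = 1 := FreeGroup.norm_of 0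
  rw [FreeGroup.norm_inv_eq] at a1 a2 a4
  have a8 := norm_Wd k
  have a9 : bb.norm ≤ 3 := by
    have : bb = ft * fa * ft⁻¹ := rfl
    rw [this]; omega
  have : wd k = bb * Wd k * bb⁻¹ * (Wd k)⁻¹ := rfl
  rw [this]; omega

lemma Nn_growth (k : ℕ) : ((5 : ℝ) / 3) ^ k ≤ Nn k := by
  induction k with
  | zero => simp [Nn]
  | succ k ih =>
    have h := Nn_succ k
    have h1 : (3 : ℝ) * Nn (k + 1) = 5 * Nn k + (Nn k % 3 : ℕ) := by exact_mod_cast h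
    have h2 : (0 : ℝ) ≤ (Nn k % 3 : ℕ) := Nat.cast_nonneg _
    rw [pow_succ]
    nlinarith

/-- no polynomial bound of degree two on the cocycle norm -/
theorem no_quadratic (K : ℕ) : ¬ ∀ w : List (Fin 2 × Bool), mkP (FreeGroup.mk w) = 1 →
    Bd (Df (FreeGroup.mk w)) (K * (w.length + 1) ^ 2) := by
  intro hall
  have h1 : ∀ k : ℕ, Nn (k + 1) ≤ K * (16 + 8 * (k + 2) + 1) ^ 2 := by
    intro k
    apply lower_bound k
    have h2 := hall (wd (k + 2)).toWord (by rw [FreeGroup.mk_toWord]; exact mkP_wd _)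
    rw [FreeGroup.mk_toWord] at h2
    apply h2.mono
    have h3 : (wd (k + 2)).toWord.length ≤ 16 + 8 * (k + 2) := norm_wd (k + 2)
    gcongr
  have h2 := tendsto_pow_const_div_const_pow_of_one_lt 2 (show (1 : ℝ) < 5 / 3 by norm_num)
  have hK : (0 : ℝ) < 1 / (K * 1200 + 1) := by positivity
  have h3 := (h2.eventually (gt_mem_nhds hK)).and (Filter.eventually_ge_atTop 1)
  obtain ⟨k, hk, hk1⟩ := h3.exists
  have h4 := h1 (k - 1)
  have h5 := Nn_growth k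
  have h6 : k - 1 + 1 = k := by omega
  rw [h6] at h4
  have h7 : (Nn k : ℝ) ≤ K * (16 + 8 * ((k - 1 : ℕ) + 2) + 1) ^ 2 := by exact_mod_cast h4
  have h8 : ((k - 1 : ℕ) : ℝ) = k - 1 := by
    rw [Nat.cast_sub hk1]; simp
  rw [h8] at h7
  have hk1' : (1 : ℝ) ≤ k := by exact_mod_cast hk1
  have h9 : (16 + 8 * ((k : ℝ) - 1 + 2) + 1) ^ 2 ≤ 1200 * k ^ 2 := by nlinarith
  have hpos : (0 : ℝ) < (5 / 3) ^ k := by positivity
  rw [div_lt_div_iff₀ hpos (by positivity)] at hk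
  have hK0 : (0 : ℝ) ≤ K := Nat.cast_nonneg _
  have h10 : (K : ℝ) * (16 + 8 * ((k : ℝ) - 1 + 2) + 1) ^ 2 ≤ K * (1200 * k ^ 2) := by gcongr
  nlinarith

end Pool.Agent.BSAuto
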